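import Pool.Agent.Helper92.Ga.Defs

set_option autoImplicit false

/-!
# Varieties with torus action
-/

namespace Pool.Agent.Helper92.Weak

/-- The variety `X` has the function field `L = K(t₁, ..., t_r)`, where `K` is the function field
of `Z`, it is stable under the torus action `t_i ↦ c_i t_i`, and every prime divisor of `X` maps
onto `Z` or onto a prime divisor of `Z`. -/
structure IsTorusVariety {k K L : Type*} [Field k] [Field K] [Field L] [Algebra k K]
    [Algebra k L] [Algebra K L] {r : ℕ} (t : Fin r → L) (X : ProjVar k L) (Z : ProjVar k K) :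
    Prop where
  indep : AlgebraicIndependent K t
  gen : IntermediateField.adjoin K (Set.range t) = ⊤
  stable : ∀ (σ : L ≃ₐ[K] L) (c : Fin r → k), (∀ i, σ (t i) = c i • t i) →
    ∀ R ∈ X.localRings, ∃ R' ∈ X.localRings, ∀ z, z ∈ R' ↔ σ z ∈ R
  equi : ∀ P ∈ X.primeDivisors, (∃ a : K, P (algebraMap K L a) ≠ 0) →
    ∃ Q ∈ Z.primeDivisors, ∃ e, LiesOver P Q e

end Pool.Agent.Helper92.Weak
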