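import Pool.Agent.Helper92.Tor.Main
import Pool.Agent.Helper92.Tor.Defs
import Pool.Agent.Helper92.Weak.Final
import Pool.Agent.Helper92.Ga.Final

set_option autoImplicit false
set_option linter.unusedSectionVars false

/-! The comparison theorem for log canonical pairs with torus action, without a quotient
morphism. -/

namespace Pool.Agent.Helper92.Tor

open scoped KaehlerDifferential
open Module Pool.Agent.Helper92.Weak Pool.Agent.Helper92.Ga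

section

variable {k K L : Type*} [Field k] [Field K] [Field L] [Algebra k K] [Algebra k L] [Algebra K L]
  [IsScalarTower k K L] {r : ℕ} {t : Fin r → L} [IsAlgClosed k] [CharZero k]

/-- The adjoint divisor of a log canonical pair. -/
theorem exists_adj (𝒱 : TW k K t) {d : ℕ} {y : Fin d → K} (hy : IsTranscendenceBasis k y)
    (ωZ : ⋀[K]^d Ω[K⁄k]) (KZ : 𝒱.Z.Div) (hKZ : 𝒱.Z.IsDivOf ωZ KZ)
    (ωX : ⋀[L]^(d + r) Ω[L⁄k]) (KX : 𝒱.X.Div) (hKX : 𝒱.X.IsDivOf ωX KX)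
    (Δ : 𝒱.X.Div) (hΔ : ∀ P, 0 ≤ Δ P) (hlc : 𝒱.X.IsLC ωX KX Δ)
    (ΔZ : 𝒱.Z.Div)
    (hle : ∀ j : 𝒱.JJ, TW.mult j * ΔZ (TW.base j) ≤ Δ ⟨j.1, j.2.1⟩ + (TW.mult j - 1)) :
    ∃ 𝒜 : 𝒱.Adj, 𝒜.KX = KX ∧ 𝒜.Δ = Δ ∧ 𝒜.KZ = KZ ∧ 𝒜.ΔZ = ΔZ := by
  classical
  -- the form on the base
  obtain ⟨b, hb⟩ := Pool.Agent.Helper50.Forms.exists_kaehler_basis hy
  obtain ⟨f₀, hf₀⟩ := Pool.Agent.Helper50.Forms.exists_smul_dform y b hb ωZ
  have hy0 : dform k y ≠ 0 := Pool.Agent.Helper50.Forms.dform_ne_zero y b hb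
  obtain ⟨f, hf, hfω⟩ : ∃ f : K, f ≠ 0 ∧ ∀ (v₀ : DVal k K) (a : ℤ), v₀.IsOrd ωZ a →
      v₀.IsOrd (f • dform k y) a := by
    by_cases h : f₀ = 0
    · refine ⟨1, one_ne_zero, fun v₀ a ha => ?_⟩
      rw [hf₀, h, zero_smul] at ha
      exact absurd ha (not_isOrd_zero v₀ a)
    · exact ⟨f₀, h, fun v₀ a ha => by rwa [hf₀] at ha⟩
  -- the form on `L`
  obtain ⟨g₀, hg₀⟩ := exists_smul_omega0 hy 𝒱.ht hf y hy0 ωX
  -- if there is no valuation on `L` everything is trivial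
  obtain ⟨g, hg, hgω⟩ : ∃ g : L, g ≠ 0 ∧ ((∃ v : DVal k L, True) →
      ωX = g • omega0 (k := k) t f y) := by
    by_cases h : g₀ = 0
    · refine ⟨1, one_ne_zero, fun ⟨v, _⟩ => ?_⟩
      exfalso
      obtain ⟨P, hP⟩ := 𝒱.X.exists_prime v
      obtain ⟨a, -, ha⟩ := hKX ⟨P, hP⟩
      rw [hg₀, h, zero_smul] at ha
      exact not_isOrd_zero _ _ ha
    · exact ⟨g₀, h, fun _ => hg₀⟩
  have hord : ∀ (v : DVal k L) (a : ℤ), v.IsOrd (omega0 (k := k) t f y) a →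
      v.IsOrd ωX (v g + a) := by
    intro v a ha
    rw [hgω ⟨v, trivial⟩]
    exact (isOrd_smul v hg).2 ha
  have hKX' : ∀ (P : 𝒱.X.primeDivisors) (a : ℤ), P.1.IsOrd (omega0 (k := k) t f y) a →
      KX P = P.1 g + a := by
    intro P a ha
    obtain ⟨a', h1, h2⟩ := hKX P
    rw [h1, isOrd_unique h2 (hord P.1 a ha)]
    push_cast
    rfl
  refine ⟨{ KX := KX, KZ := KZ, Δ := Δ, Δ_nonneg := hΔ, ΔZ := ΔZ,
            ΔZ_le := hle, KX_int := ?_, g := g, g_ne := hg, non := ?_,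
            vert := ?_, qc := hlc.1, lc_hor := ?_ }, rfl, rfl, rfl, rfl⟩
  · intro P
    obtain ⟨a, h1, -⟩ := hKX P
    exact ⟨a, h1⟩
  · intro P hP
    obtain ⟨p, hp, hPp, hi⟩ := exists_polyVal 𝒱.stable P.2 hP
    have h1 : P.1.IsOrd (omega0 (k := k) t f y) 0 := by
      rw [hPp]
      exact isOrd_polyVal hy 𝒱.ht hp hi hf y hy0
    rw [hKX' P 0 h1]
    simp
  · intro j
    obtain ⟨hs, hi⟩ := 𝒱.inv_eq j.1 (𝒱.vert_inv j)
    have h0 : (ZVal.restrict j.1 : ZVal k K) = ZVal.ofDVal (TW.mult j) (TW.base j).1 := by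
      apply ZVal.ext
      intro a
      exact TW.mult_spec j a
    rw [h0] at hs
    have h1 : j.1 = monoVal 𝒱.ht (ZVal.ofDVal (TW.mult j) (TW.base j).1)
        (TV.wvec j.1 t) hs := by
      have h2 : ∀ (v : ZVal k K) (hv : v = ZVal.ofDVal (TW.mult j) (TW.base j).1) hs',
          monoVal 𝒱.ht v (TV.wvec j.1 t) hs' =
            monoVal 𝒱.ht (ZVal.ofDVal (TW.mult j) (TW.base j).1) (TV.wvec j.1 t) hs := by
        intro v hv hs'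
        subst hv
        rfl
      exact hi.trans (h2 _ h0 _)
    obtain ⟨a, ha1, ha2⟩ := hKZ (TW.base j)
    have h3 : j.1.IsOrd (omega0 (k := k) t f y) (TW.mult j * (a + 1) - 1) := by
      rw [h1]
      exact isOrd_vert hy 𝒱.ht _ _ (TW.mult_pos j) _ hs hf y hy0 (hfω _ _ ha2)
    rw [hKX' ⟨j.1, j.2.1⟩ _ h3, ha1]
    push_cast
    ring
  · intro w hw c hc
    have h1 := hlc.2 _ (monoVal_isDivisorial 𝒱.ht 𝒱.fgK _ w (TW.norm_of hw) (Or.inl rfl)) _ c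
      (hord _ _ (isOrd_hor hy 𝒱.ht w (TW.norm_of hw) hf y hy0)) hc
    change c ≤ 1 + ((TW.wVal 𝒱 w hw g + -1 : ℤ) : ℚ) at h1
    push_cast at h1
    linarith

/-- The comparison theorem. -/
theorem torus_variety {d : ℕ} (hd : Algebra.trdeg k K = d)
    (Z : ProjVar k K) (X : ProjVar k L) (h : IsTorusVariety t X Z)
    (ωZ : ⋀[K]^d Ω[K⁄k]) (KZ : Z.Div) (hKZ : Z.IsDivOf ωZ KZ)
    (ωX : ⋀[L]^(d + r) Ω[L⁄k]) (KX : X.Div) (hKX : X.IsDivOf ωX KX)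
    (Δ : X.Div) (hΔ : ∀ P, 0 ≤ Δ P) (hlc : X.IsLC ωX KX Δ)
    (ΔZ : Z.Div)
    (hbase : ∀ (P : X.primeDivisors) (Q : Z.primeDivisors) (e : ℕ), LiesOver P.1 Q.1 e →
      e * ΔZ Q ≤ Δ P + (e - 1))
    (hκ : Z.kod (KZ + ΔZ) ≠ ⊥) :
    (X.kod (KX + Δ) = ⊥ ∧ X.nu (KX + Δ) = ⊥) ∨
    ∃ (s : ℕ) (B : Z.Div), s ≤ r ∧ (∀ Q, 0 ≤ B Q) ∧ ∀ ε : ℚ, 0 < ε →
      X.kod (KX + Δ) = s + Z.kod (KZ + ΔZ + ε • B) ∧
      X.nu (KX + Δ) = s + Z.nu (KZ + ΔZ + ε • B) := by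
  obtain ⟨y, hy⟩ := exists_basis_of_trdeg hd
  have ht' : IsTorus K t := ⟨h.indep, h.gen⟩
  let 𝒱 : TW k K t :=
    { ht := ht'
      Z := Z
      X := X
      stable := Weak.stable_of ht' h.stable
      equi := fun P hP h' => by
        obtain ⟨Q, hQ, e, -, he⟩ := h.equi P hP h'
        exact ⟨Q, hQ, e, he⟩ }
  obtain ⟨𝒜, h1, h2, h3, h4⟩ := exists_adj 𝒱 hy ωZ KZ hKZ ωX KX hKX Δ hΔ hlc ΔZ
    (fun j => hbase ⟨j.1, j.2.1⟩ (TW.base j) (TW.mult j) ⟨TW.mult_pos j, TW.mult_spec j⟩)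
  -- a pluricanonical form
  obtain ⟨m, hm, η, hη, hη2⟩ : ∃ m : ℕ, 0 < m ∧ ∃ η : K, η ≠ 0 ∧
      ∀ Q : 𝒱.QQ, 0 ≤ (Q.1 η : ℚ) + m * (𝒜.KZ Q + 𝒜.ΔZ Q) := by
    have hne : ¬ ∀ m : ℕ, 1 ≤ m → Z.h0 ((m : ℚ) • (KZ + ΔZ)) = 0 := by
      intro h
      apply hκ
      unfold ProjVar.kod kodDim
      rw [if_pos h]
    push Not at hne
    obtain ⟨m, hm, hm2⟩ := hne
    have h5 : sdim (Z.H0 ((m : ℚ) • (KZ + ΔZ))) ≠ 0 := by
      intro h0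
      have := Z.h0_le ((m : ℚ) • (KZ + ΔZ))
      rw [h0] at this
      exact hm2 (le_antisymm this zero_le)
    rw [sdim_ne_zero] at h5
    obtain ⟨η, hη, hη0⟩ := h5
    refine ⟨m, hm, η, hη0, fun Q => ?_⟩
    unfold ProjVar.H0 at hη
    rw [mem_sec_of_ne hη0] at hη
    have h6 := hη Q
    rw [Finsupp.smul_apply, Finsupp.add_apply, smul_eq_mul] at h6
    rw [h3, h4]
    exact h6
  have key := TW.adj_main 𝒜 hm hη hη2
  rw [h1, h2, h3, h4] at key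
  exact key

/-- The comparison theorem, in terms of pairs. -/
theorem torus_variety_pair {d : ℕ} (hd : Algebra.trdeg k K = d) (Z : ProjVar k K)
    (X : ProjVar k L) (h : IsTorusVariety t X Z) (p : X.Pair (d + r))
    (hlc : p.LC) (q : Z.Pair d) (hq : IsOrbifoldBase p q) (hκ : Z.kod q.logDiv ≠ ⊥) :
    (X.kod p.logDiv = ⊥ ∧ X.nu p.logDiv = ⊥) ∨
    ∃ (s : ℕ) (B : Z.Div), s ≤ r ∧ (∀ Q, 0 ≤ B Q) ∧
      (∀ ε : ℚ, 0 < ε → X.kod p.logDiv = s + Z.kod (q.logDiv + ε • B) ∧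
        X.nu p.logDiv = s + Z.nu (q.logDiv + ε • B)) ∧
      (Z.IsSmooth d → Z.IsQFactorial → Z.IsKlt q.ω q.can q.Δ →
        ∃ ε₀ : ℚ, 0 < ε₀ ∧ ∀ ε, 0 < ε → ε ≤ ε₀ → Z.IsKlt q.ω q.can (q.Δ + ε • B)) := by
  obtain ⟨y, hy⟩ := exists_basis_of_trdeg hd
  have ht : IsTorus K t := ⟨h.indep, h.gen⟩
  obtain ⟨b, hb⟩ := Pool.Agent.Helper50.Forms.exists_kaehler_basis hy
  obtain ⟨B, hB, -, -⟩ := Pool.Agent.Helper50.Forms.exists_basis_tower hy _ ht.indep ht.gen y b hb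
  obtain ⟨ωZ, hωZ⟩ := exists_form b y hb q.ω
  obtain ⟨ωX, hωX⟩ := exists_form B _ hB p.ω
  have h1 : Z.IsDivOf ωZ q.can := by
    intro Q
    obtain ⟨a, ha, ha'⟩ := q.isDivisorOf Q
    exact ⟨a, ha, (hωZ _ _).1 ha'⟩
  have h2 : X.IsDivOf ωX p.can := by
    intro P
    obtain ⟨a, ha, ha'⟩ := p.isDivisorOf P
    exact ⟨a, ha, (hωX _ _).1 ha'⟩
  have h3 : X.IsLC ωX p.can p.Δ :=
    ⟨hlc.1, fun v hv a c ha hc => hlc.2 v hv a c ((hωX v a).2 ha) hc⟩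
  rcases torus_variety hd Z X h ωZ q.can h1
    ωX p.can h2 p.Δ p.nonneg h3 q.Δ hq hκ with h1 | ⟨s, B, hs, hB, hinv⟩
  · exact Or.inl h1
  · exact Or.inr ⟨s, B, hs, hB, hinv, fun hsm hqf hklt => klt_add_smul hd Z hsm hqf q hklt B⟩

end

end Pool.Agent.Helper92.Tor
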