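import Pool.Agent.Helper92.Tor.Sect

set_option autoImplicit false
set_option linter.unusedSectionVars false

/-! Comparison of a divisor on `X` with a divisor on the base. -/

namespace Pool.Agent.Helper92.Tor

open Pool.Agent.Helper92.Weak Pool.Agent.Helper92.Ga MvPolynomial Filter

namespace TW

variable {k K L : Type*} [Field k] [Field K] [Field L] [Algebra k K] [Algebra k L] [Algebra K L]
  [IsScalarTower k K L] {r : ℕ} {t : Fin r → L} {𝒱 : TW k K t} [IsAlgClosed k] [CharZero k]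

/-- A function with prescribed zeros along non-invariant divisors. -/
lemma exists_fun (A : 𝒱.X.Div) : ∃ f : L, f ≠ 0 ∧ ∀ P : 𝒱.X.primeDivisors, ¬ IsInv 𝒱.ht P.1 →
    A P ≤ P.1 f := by
  classical
  induction A using Finsupp.induction with
  | zero => exact ⟨1, one_ne_zero, fun P _ => by simp⟩
  | single_add P₀ b A _ _ ih =>
    obtain ⟨f, hf, h⟩ := ih
    by_cases hni : IsInv 𝒱.ht P₀.1
    · refine ⟨f, hf, fun P hP => ?_⟩
      rw [Finsupp.add_apply, Finsupp.single_apply, if_neg (by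
        rintro rfl
        exact hP hni), zero_add]
      exact h P hP
    · obtain ⟨p, hp, hPp, hi⟩ := exists_polyVal 𝒱.stable P₀.2 hni
      have hp0 : aeval t p ≠ 0 := fun h => hp.ne_zero (𝒱.ht.indep (by rw [h, map_zero]))
      refine ⟨aeval t p ^ ⌈b⌉₊ * f, mul_ne_zero (pow_ne_zero _ hp0) hf, fun P hP => ?_⟩
      rw [DVal.map_mul _ (pow_ne_zero _ hp0) hf, DVal.map_pow, Finsupp.add_apply,
        Finsupp.single_apply]
      have h1 := h P hP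
      have h2 : 0 ≤ P.1 (aeval t p) := by
        obtain ⟨p', hp', hPp', hi'⟩ := exists_polyVal 𝒱.stable P.2 hP
        rw [hPp']
        exact polyVal_nonneg k 𝒱.ht hp' p
      have h3 : (0 : ℚ) ≤ P.1 (aeval t p) := by exact_mod_cast h2
      push_cast
      split_ifs with heq
      · have h4 : P.1 (aeval t p) = 1 := by
          rw [← heq, hPp, polyVal_self]
        rw [h4]
        have h5 := Nat.le_ceil b
        push_cast
        linarith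
      · have h4 : (0 : ℚ) ≤ (⌈b⌉₊ : ℚ) * P.1 (aeval t p) := by positivity
        linarith

/-- Removing the non-invariant components of a divisor. -/
lemma exists_inv (A : 𝒱.X.Div) : ∃ (A' : 𝒱.X.Div) (f : L), f ≠ 0 ∧ InvDiv A' ∧
    ∀ P : 𝒱.X.primeDivisors, A P ≤ A' P + P.1 f := by
  classical
  obtain ⟨f, hf, h⟩ := exists_fun A
  let F : 𝒱.X.primeDivisors → Prop := fun P => IsInv 𝒱.ht P.1
  refine ⟨(A - 𝒱.X.prin f).filter F, f, hf, ?_, ?_⟩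
  · intro P hP
    rw [Finsupp.filter_apply_neg]
    exact hP
  · intro P
    by_cases hP : F P
    · rw [Finsupp.filter_apply_pos _ _ hP, Finsupp.sub_apply, ProjVar.prin_apply]
      linarith
    · rw [Finsupp.filter_apply_neg _ _ hP, zero_add]
      exact h P hP

/-- Reduction to divisors without non-invariant components. -/
structure Red (E : 𝒱.X.Div) where
  M : ℕ
  M_pos : 0 < M
  int : 𝒱.X.IsInt ((M : ℚ) • E)
  G : L
  G_ne : G ≠ 0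
  D : 𝒱.X.Div
  D_eq : ∀ P, D P = M * E P - P.1 G
  inv : InvDiv D

lemma Red.upper {E : 𝒱.X.Div} (R : Red E) (A : 𝒱.X.Div) : ∃ A' : 𝒱.X.Div,
    InvDiv A' ∧ ∀ m : ℕ, sdim (𝒱.X.H0 ((m : ℚ) • E + A)) ≤
      sdim (𝒱.X.H0 (((m / R.M : ℕ) : ℚ) • R.D + A')) := by
  classical
  choose A₀ f hf hA₀ hle using fun ρ : ℕ => exists_inv (((ρ : ℚ)) • E + A)
  have hmem : ∀ (s : Finset ℕ) P, (∑ ρ ∈ s, ((A₀ ρ).mapRange (fun x => |x|) (by simp))) P =
      ∑ ρ ∈ s, |A₀ ρ P| := by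
    intro s P
    rw [Finsupp.finsetSum_apply]
    rfl
  refine ⟨∑ ρ ∈ Finset.range R.M, ((A₀ ρ).mapRange (fun x => |x|) (by simp)), ?_, fun m => ?_⟩
  · intro P hP
    rw [hmem]
    apply Finset.sum_eq_zero
    intro ρ _
    rw [hA₀ ρ P hP, abs_zero]
  · apply sdim_sec_le (R.G ^ (m / R.M) * f (m % R.M))
      (mul_ne_zero (pow_ne_zero _ R.G_ne) (hf _))
    intro P
    rw [DVal.map_mul _ (pow_ne_zero _ R.G_ne) (hf _), DVal.map_pow, Finsupp.add_apply,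
      Finsupp.add_apply, Finsupp.smul_apply, Finsupp.smul_apply, smul_eq_mul, smul_eq_mul, hmem,
      R.D_eq]
    have h1 := hle (m % R.M) P
    rw [Finsupp.add_apply, Finsupp.smul_apply, smul_eq_mul] at h1
    have h2 : A₀ (m % R.M) P ≤ ∑ ρ ∈ Finset.range R.M, |A₀ ρ P| :=
      (le_abs_self _).trans (Finset.single_le_sum (f := fun ρ => |A₀ ρ P|)
        (fun ρ _ => abs_nonneg _) (Finset.mem_range.2 (Nat.mod_lt _ R.M_pos)))
    have h5 : (m : ℚ) = R.M * (m / R.M : ℕ) + (m % R.M : ℕ) := by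
      exact_mod_cast (Nat.div_add_mod m R.M).symm
    have h6 : (m : ℚ) * E P + A P = R.M * (m / R.M : ℕ) * E P + ((m % R.M : ℕ) * E P + A P) := by
      rw [h5]
      ring
    rw [h6]
    generalize ∑ ρ ∈ Finset.range R.M, |A₀ ρ P| = S at h2 ⊢
    generalize m / R.M = l
    generalize m % R.M = ρ at h1 h2 ⊢
    push_cast at h1 ⊢
    linarith

lemma Red.upper0 {E : 𝒱.X.Div} (R : Red E) (n : ℕ) :
    sdim (𝒱.X.H0 (((R.M * n : ℕ) : ℚ) • E)) ≤ sdim (𝒱.X.H0 ((n : ℚ) • R.D)) := by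
  apply sdim_sec_le (R.G ^ n) (pow_ne_zero _ R.G_ne)
  intro P
  rw [DVal.map_pow, Finsupp.smul_apply, Finsupp.smul_apply, smul_eq_mul, smul_eq_mul, R.D_eq]
  push_cast
  linarith

lemma Red.lower {E : 𝒱.X.Div} (R : Red E) (A : 𝒱.X.Div) (n : ℕ) :
    sdim (𝒱.X.H0 ((n : ℚ) • R.D + A)) ≤ sdim (𝒱.X.H0 (((R.M * n : ℕ) : ℚ) • E + A)) := by
  apply sdim_sec_le (R.G ^ n)⁻¹ (inv_ne_zero (pow_ne_zero _ R.G_ne))
  intro P
  rw [DVal.map_inv, DVal.map_pow, Finsupp.add_apply, Finsupp.add_apply, Finsupp.smul_apply,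
    Finsupp.smul_apply, smul_eq_mul, smul_eq_mul, R.D_eq]
  push_cast
  linarith

lemma Red.finite {E : 𝒱.X.Div} (R : Red E) : {j : 𝒱.JJ | R.D ⟨j.1, j.2.1⟩ ≠ 0}.Finite := by
  apply Set.Finite.of_finite_image (f := fun j : 𝒱.JJ => (⟨j.1, j.2.1⟩ : 𝒱.X.primeDivisors))
  · apply R.D.hasFiniteSupport.subset
    rintro _ ⟨j, hj, rfl⟩
    exact hj
  · intro j _ j' _ h
    exact Subtype.ext (congrArg (fun x : 𝒱.X.primeDivisors => x.1) h)

variable (𝒱) in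
/-- The pull back of a divisor on the base. -/
noncomputable def pullFun (A : 𝒱.QQ → ℚ) (P : 𝒱.X.primeDivisors) : ℚ :=
  open Classical in
  if h : ∃ a : K, P.1 (algebraMap K L a) ≠ 0 then
    mult (⟨P.1, P.2, h⟩ : 𝒱.JJ) * A (base (⟨P.1, P.2, h⟩ : 𝒱.JJ)) else 0

lemma pullFun_vert (A : 𝒱.QQ → ℚ) (j : 𝒱.JJ) :
    𝒱.pullFun A ⟨j.1, j.2.1⟩ = mult j * A (base j) := by
  unfold pullFun
  rw [dif_pos j.2.2]

lemma pullFun_of_trivial (A : 𝒱.QQ → ℚ) {P : 𝒱.X.primeDivisors}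
    (h : ∀ a : K, P.1 (algebraMap K L a) = 0) : 𝒱.pullFun A P = 0 := by
  unfold pullFun
  rw [dif_neg]
  push Not
  exact h

lemma pullFun_finite {A : 𝒱.QQ → ℚ} (hA : {q | A q ≠ 0}.Finite) :
    {P | 𝒱.pullFun A P ≠ 0}.Finite := by
  have h1 : (⋃ q ∈ {q | A q ≠ 0}, (fun j : 𝒱.JJ => (⟨j.1, j.2.1⟩ : 𝒱.X.primeDivisors)) ''
      {j : 𝒱.JJ | base j = q}).Finite := hA.biUnion fun q _ => (𝒱.fib q).image _
  apply h1.subset
  intro P hP
  by_cases h : ∃ a : K, P.1 (algebraMap K L a) ≠ 0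
  · rw [Set.mem_iUnion₂]
    refine ⟨base ⟨P.1, P.2, h⟩, ?_, ⟨P.1, P.2, h⟩, rfl, rfl⟩
    intro h0
    apply hP
    have := pullFun_vert A (⟨P.1, P.2, h⟩ : 𝒱.JJ)
    rw [h0, mul_zero] at this
    exact this
  · push Not at h
    exact absurd (pullFun_of_trivial A h) hP

/-- The pull back as a divisor. -/
noncomputable def pullDiv (A : 𝒱.Z.Div) : 𝒱.X.Div :=
  Finsupp.onFinset (pullFun_finite (𝒱 := 𝒱) (A := A) A.hasFiniteSupport).toFinset
    (𝒱.pullFun A) (by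
      intro P hP
      rw [Set.Finite.mem_toFinset]
      exact hP)

lemma pullDiv_apply (A : 𝒱.Z.Div) (P : 𝒱.X.primeDivisors) : pullDiv A P = 𝒱.pullFun A P := rfl

lemma pullDiv_zero : pullDiv (𝒱 := 𝒱) 0 = 0 := by
  ext P
  rw [pullDiv_apply]
  unfold pullFun
  split_ifs <;> simp

lemma pullDiv_int {A : 𝒱.Z.Div} (hA : 𝒱.Z.IsInt A) : 𝒱.X.IsInt (pullDiv A) := by
  intro P
  rw [pullDiv_apply]
  by_cases h : ∃ a : K, P.1 (algebraMap K L a) ≠ 0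
  · obtain ⟨z, hz⟩ := hA (base ⟨P.1, P.2, h⟩)
    refine ⟨mult (⟨P.1, P.2, h⟩ : 𝒱.JJ) * z, ?_⟩
    have := pullFun_vert A (⟨P.1, P.2, h⟩ : 𝒱.JJ)
    rw [hz] at this
    rw [this]
    push_cast
    rfl
  · push Not at h
    exact ⟨0, by rw [pullFun_of_trivial A h]; simp⟩

lemma pullDiv_inv (A : 𝒱.Z.Div) : InvDiv (pullDiv (𝒱 := 𝒱) A) := by
  intro P hP
  rw [pullDiv_apply]
  apply pullFun_of_trivial
  intro a
  by_contra h
  exact hP (isInv_of_algebraMap 𝒱.stable P.2 h)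

variable {W : Finset (Fin r → ℤ)} {hW : ∀ u : Fin r → ℚ, (∀ w ∈ W, 0 ≤ pairL w u) → u = 0}

/-- The divisor on the base attached to the interior point. -/
lemma G₀_finite {D : (𝒱.HH ⊕ {w // w ∈ W}) ⊕ (𝒱.JJ ⊕ 𝒱.NN) → ℚ}
    (hD : {j | D (Sum.inr j) ≠ 0}.Finite)
    (𝒢 : Geom (𝒱.ext W hW) D) : {q | 𝒢.G₀ q ≠ 0}.Finite := by
  refine finite_base_image (𝒱.ext W hW) ((𝒱.ext W hW).special.union hD) fun q hq => ?_
  unfold Geom.G₀
  rw [low_eq_zero, mul_zero]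
  intro j hj
  have := hq j hj
  simp only [Set.mem_union, Set.mem_ofPred_eq, not_or, not_not] at this
  exact ⟨this.1.1, this.2⟩

lemma g₀_mem_sec {D : (𝒱.HH ⊕ {w // w ∈ W}) ⊕ (𝒱.JJ ⊕ 𝒱.NN) → ℚ}
    (𝒢 : Geom (𝒱.ext W hW) D) (q : 𝒱.QQ) : 0 ≤ (q.1 𝒢.g₀ : ℚ) + 𝒢.G₀ q := by
  have hg : 𝒢.g₀ ∈ sec (𝒱.ext W hW).ord 𝒢.G₀ := by
    have h1 := 𝒢.g₀_mem
    rw [TData.wt_eq] at h1
    · have h2 : (𝒱.ext W hW).low ((𝒢.T : ℚ) • D) ((𝒢.T : ℚ) • 𝒢.u₀) = 𝒢.G₀ := by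
        funext q
        rw [TData.low_smul (by positivity)]
        rfl
      rwa [h2] at h1
    · intro i
      have h2 := 𝒢.h0 i
      have h3 : (0 : ℚ) ≤ 𝒢.T := by positivity
      have h4 := mul_nonneg h3 h2
      rw [map_smul, Pi.smul_apply, smul_eq_mul, smul_eq_mul]
      linarith
  rw [mem_sec_of_ne 𝒢.g₀_ne] at hg
  exact hg q

/-- The extension of the divisor by the values at the additional valuations. -/
structure IsExt (D : 𝒱.X.Div) (hW1 : ∀ w ∈ W, ∃ a, ipair w a = 1)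
    (D' : (𝒱.HH ⊕ {w // w ∈ W}) ⊕ (𝒱.JJ ⊕ 𝒱.NN) → ℚ) : Prop where
  hi : ∀ i : 𝒱.HH, D' (Sum.inl (Sum.inl i)) = D ⟨i.1, i.2.1⟩
  hw : ∀ w : {w // w ∈ W}, 𝒱.X.IsValue (wVal 𝒱 w.1 (hW1 w.1 w.2)) D (D' (Sum.inl (Sum.inr w)))
  hj : ∀ j : 𝒱.JJ, D' (Sum.inr (Sum.inl j)) = D ⟨j.1, j.2.1⟩
  hQ : ∀ Q : 𝒱.NN, ∃ c, 𝒱.X.IsValue (gaussVal 𝒱.ht Q.1.1) D c ∧ c ≤ D' (Sum.inr (Sum.inr Q))

lemma IsExt.finite {D : 𝒱.X.Div} (hD : {j : 𝒱.JJ | D ⟨j.1, j.2.1⟩ ≠ 0}.Finite)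
    {hW1 : ∀ w ∈ W, ∃ a, ipair w a = 1}
    {D' : (𝒱.HH ⊕ {w // w ∈ W}) ⊕ (𝒱.JJ ⊕ 𝒱.NN) → ℚ} (h : IsExt D hW1 D') :
    {j | D' (Sum.inr j) ≠ 0}.Finite := by
  have := 𝒱.finite_NN
  refine ((hD.image Sum.inl).union (Set.finite_range Sum.inr)).subset ?_
  rintro (j | Q) hj
  · refine Or.inl ⟨j, ?_, rfl⟩
    rw [Set.mem_ofPred_eq, h.hj] at hj
    exact hj
  · exact Or.inr ⟨Q, rfl⟩

/-- The comparison theorem. -/
theorem comparison {E : 𝒱.X.Div} (R : Red E) {hW1 : ∀ w ∈ W, ∃ a, ipair w a = 1}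
    {D' : (𝒱.HH ⊕ {w // w ∈ W}) ⊕ (𝒱.JJ ⊕ 𝒱.NN) → ℚ} (hD' : IsExt R.D hW1 D')
    (𝒢 : Geom (𝒱.ext W hW) D') (DZ : 𝒱.Z.Div) (hDZ : ∀ q, DZ q = 𝒢.G₀ q) :
    Comparison 𝒱.X 𝒱.Z E DZ 𝒢.s := by
  classical
  have hint : 𝒱.Z.IsInt DZ := by
    intro q
    rw [hDZ]
    exact 𝒢.int_low q
  have hfin := hD'.finite R.finite
  refine ⟨hint, ⟨𝒢.g₀, 𝒢.g₀_ne, fun Q => by rw [hDZ]; exact g₀_mem_sec 𝒢 Q⟩, ?_, ?_, ?_⟩
  · intro A
    obtain ⟨A₁, hA₁, h1⟩ := R.upper A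
    obtain ⟨A', hA', -, h2⟩ := exists_H0_le (hW := hW) R.inv hW1 (fun i => (hD'.hi i).ge) hD'.hw
      (fun j => (hD'.hj j).ge) hD'.hQ A₁ hA₁
    obtain ⟨C, a, A'', ha, hA''f, hA''0, h3⟩ := nu_upper 𝒢 hfin A' hA'
    let AZ : 𝒱.Z.Div := Finsupp.onFinset hA''f.toFinset (fun q => (⌈A'' q⌉ : ℚ)) (by
      intro q hq
      rw [Set.Finite.mem_toFinset, Set.mem_ofPred_eq]
      intro h
      rw [h] at hq
      simp at hq)
    have hAZ : ∀ q, AZ q = (⌈A'' q⌉ : ℚ) := fun q => rfl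
    refine ⟨AZ, C, a, 1, fun m => a * (m / R.M + 1), fun q => ⟨⌈A'' q⌉, hAZ q⟩, ?_, ?_, ?_⟩
    · apply tendsto_atTop_mono (f := fun m => m / R.M)
      · intro m
        calc m / R.M ≤ m / R.M + 1 := Nat.le_succ _
          _ ≤ a * (m / R.M + 1) := Nat.le_mul_of_pos_left _ ha
      · exact Nat.tendsto_div_const_atTop R.M_pos.ne'
    · intro m
      exact Nat.mul_le_mul_left _ (Nat.add_le_add_right (Nat.div_le_self _ _) _)
    · filter_upwards [eventually_ge_atTop R.M] with m hm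
      have hn : 1 ≤ m / R.M := (Nat.one_le_div_iff R.M_pos).2 hm
      refine (h1 m).trans ((h2 _).trans ((h3 _ hn).trans ?_))
      have h5 : sdim (sec (𝒱.ext W hW).ord (((a * (m / R.M + 1) : ℕ) : ℚ) • 𝒢.G₀ + A'')) ≤
          sdim (𝒱.Z.H0 (((a * (m / R.M + 1) : ℕ) : ℚ) • DZ + AZ)) := by
        apply sdim_mono
        apply sec_mono
        intro q
        rw [Finsupp.add_apply, Finsupp.smul_apply, hAZ, hDZ, Pi.add_apply, Pi.smul_apply]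
        have := Int.le_ceil (A'' q)
        linarith
      have h4 : ((m / R.M : ℕ) : ℕ∞) ≤ m := by exact_mod_cast Nat.div_le_self _ _
      gcongr
  · obtain ⟨C, a, c, ha, h3⟩ := kappa_upper 𝒢
    refine ⟨R.M, C, a * (1 + c), R.M_pos, Nat.mul_pos ha (by omega), fun n hn => ?_⟩
    obtain ⟨A', -, hA'0, h2⟩ := exists_H0_le (hW := hW) R.inv hW1 (fun i => (hD'.hi i).ge) hD'.hw
      (fun j => (hD'.hj j).ge) hD'.hQ 0 (fun P _ => rfl)
    have h4 := h2 n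
    rw [hA'0 rfl, add_zero, add_zero] at h4
    refine (R.upper0 n).trans (h4.trans ((h3 n hn).trans ?_))
    gcongr
    have h5 : sdim (sec (𝒱.ext W hW).ord (((a * (n + c) : ℕ) : ℚ) • 𝒢.G₀)) ≤
        sdim (𝒱.Z.H0 (((a * (n + c) : ℕ) : ℚ) • DZ)) := by
      apply sdim_mono
      apply sec_mono
      intro q
      rw [Finsupp.smul_apply, hDZ, Pi.smul_apply]
    refine h5.trans ?_
    have h6 := h0_mono_of_eff 𝒢.g₀_ne (fun Q => by rw [hDZ]; exact g₀_mem_sec 𝒢 Q : ∀ Q :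
      𝒱.Z.primeDivisors, 0 ≤ (Q.1 𝒢.g₀ : ℚ) + DZ Q) (i := a * (n + c)) (j := a * (1 + c) * n)
      (by
        rw [mul_assoc]
        apply Nat.mul_le_mul_left
        nlinarith) 0
    rwa [add_zero, add_zero] at h6
  · refine ⟨R.M * ((𝒢.s + 1) * 𝒢.T), Nat.mul_pos R.M_pos (Nat.mul_pos (Nat.succ_pos _) 𝒢.T_pos),
      fun A hA => ⟨pullDiv A, fun h => by rw [h, pullDiv_zero], fun n _ => ?_⟩⟩
    rw [𝒱.Z.h0_of_int ((hint.nsmul n).add hA), 𝒱.X.h0_of_int]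
    · have h1 := Weak.lower 𝒢 A n
      have h2 : sdim ((𝒱.ext W hW).secT ((((𝒢.s + 1) * 𝒢.T * n : ℕ) : ℚ) • D' +
          pull (𝒱.ext W hW) A)) ≤
          sdim (𝒱.X.H0 ((((𝒢.s + 1) * 𝒢.T * n : ℕ) : ℚ) • R.D + pullDiv A)) := by
        apply sdim_le_H0 R.inv (pullDiv_inv A) (fun i => (hD'.hi i).le) (fun j => (hD'.hj j).le)
        · intro i
          rw [pullDiv_apply, pullFun_of_trivial A (P := ⟨i.1, i.2.1⟩) i.2.2.2]
          exact le_rfl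
        · intro j
          rw [pullDiv_apply, pullFun_vert A j]
          exact le_rfl
      have h3 := R.lower (pullDiv A) ((𝒢.s + 1) * 𝒢.T * n)
      have h4 : R.M * ((𝒢.s + 1) * 𝒢.T) * n = R.M * ((𝒢.s + 1) * 𝒢.T * n) := by ring
      rw [h4]
      refine le_trans ?_ (h1.trans (h2.trans h3))
      gcongr
      apply sdim_mono
      apply sec_mono
      intro q
      rw [Finsupp.add_apply, Finsupp.smul_apply, hDZ, Pi.add_apply, Pi.smul_apply]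
    · apply ProjVar.IsInt.add _ (pullDiv_int hA)
      have h1 := R.int.nsmul (((𝒢.s + 1) * 𝒢.T) * n)
      rw [smul_smul] at h1
      have h2 : (((R.M * ((𝒢.s + 1) * 𝒢.T)) * n : ℕ) : ℚ) =
          ((((𝒢.s + 1) * 𝒢.T) * n : ℕ) : ℚ) * R.M := by push_cast; ring
      rwa [h2]

/-- The case of an empty polytope. -/
theorem empty_case {E : 𝒱.X.Div} (R : Red E) {hW1 : ∀ w ∈ W, ∃ a, ipair w a = 1}
    {D' : (𝒱.HH ⊕ {w // w ∈ W}) ⊕ (𝒱.JJ ⊕ 𝒱.NN) → ℚ} (hD' : IsExt R.D hW1 D')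
    (hP : ¬ ∃ u, InP (𝒱.ext W hW) D' u) : 𝒱.X.kod E = ⊥ ∧ 𝒱.X.nu E = ⊥ := by
  classical
  have : Finite 𝒱.HH := 𝒱.hor_finite
  let _ : Fintype 𝒱.HH := Fintype.ofFinite _
  constructor
  · unfold ProjVar.kod kodDim
    rw [if_pos]
    intro m hm
    by_contra hne
    have h1 : sdim (𝒱.X.H0 ((m : ℚ) • E)) ≠ 0 := by
      intro h0
      have := 𝒱.X.h0_le ((m : ℚ) • E)
      rw [h0] at this
      exact hne (le_antisymm this zero_le)
    rw [sdim_ne_zero] at h1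
    obtain ⟨f, hf, hf0⟩ := h1
    have h2 := pow_mem_sec hf0 hf R.M
    have h3 : (R.M : ℚ) • ((((m : ℚ) • E : 𝒱.X.Div)) : 𝒱.X.primeDivisors → ℚ) =
        ((((R.M * m : ℕ) : ℚ) • E : 𝒱.X.Div) : 𝒱.X.primeDivisors → ℚ) := by
      funext q
      simp only [Pi.smul_apply, Finsupp.smul_apply, smul_eq_mul]
      push_cast
      ring
    rw [h3] at h2
    have h4 : sdim (𝒱.X.H0 (((R.M * m : ℕ) : ℚ) • E)) ≠ 0 := by
      rw [sdim_ne_zero]
      exact ⟨_, h2, pow_ne_zero _ hf0⟩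
    obtain ⟨A', -, hA'0, h7⟩ := exists_H0_le (hW := hW) R.inv hW1 (fun i => (hD'.hi i).ge) hD'.hw
      (fun j => (hD'.hj j).ge) hD'.hQ 0 (fun P _ => rfl)
    have h5 : sdim ((𝒱.ext W hW).secT ((m : ℚ) • D')) ≠ 0 := by
      intro h0
      have h8 := h7 m
      rw [hA'0 rfl, add_zero, add_zero, h0] at h8
      have := R.upper0 m
      exact h4 (le_antisymm (this.trans h8) zero_le)
    rw [sdim_ne_zero] at h5
    obtain ⟨h, hh, hh0⟩ := h5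
    obtain ⟨u, hu⟩ := Finsupp.ne_iff.1 hh0
    rw [Finsupp.zero_apply] at hu
    have h6 := hh u
    rw [TData.mem_wt hu] at h6
    apply hP
    have hm0 : (0 : ℚ) < m := by exact_mod_cast hm
    refine ⟨(m : ℚ)⁻¹ • fun l => (u l : ℚ), fun i => ?_⟩
    have h7 := h6.1 i
    rw [map_smul, smul_eq_mul]
    rw [Pi.smul_apply, smul_eq_mul] at h7
    have h8 := mul_nonneg (inv_nonneg.2 hm0.le) h7
    rw [mul_add, ← mul_assoc _ (m : ℚ), inv_mul_cancel₀ hm0.ne', one_mul] at h8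
    exact h8
  · unfold ProjVar.nu
    rw [iSup_eq_bot]
    intro A
    apply logGrowth_eq_bot
    obtain ⟨A₁, hA₁, hA⟩ := R.upper A
    obtain ⟨A', -, -, hA'⟩ := exists_H0_le (hW := hW) R.inv hW1 (fun i => (hD'.hi i).ge) hD'.hw
      (fun j => (hD'.hj j).ge) hD'.hQ A₁ hA₁
    obtain ⟨m₀, hm₀⟩ := poly_empty (fun i => pairL ((𝒱.ext W hW).ρ i))
      (fun i => D' (Sum.inl i)) hP (fun i => A' (Sum.inl i))
    filter_upwards [eventually_ge_atTop (R.M * m₀)] with m hm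
    have hn : m₀ ≤ m / R.M := by
      rw [Nat.le_div_iff_mul_le R.M_pos, mul_comm]
      exact hm
    have h1 : sdim ((𝒱.ext W hW).secT (((m / R.M : ℕ) : ℚ) • D' + A')) = 0 := by
      rw [sdim_eq_zero, Submodule.eq_bot_iff]
      intro h hh
      ext u
      by_contra hu
      have h6 := hh u
      rw [TData.mem_wt hu] at h6
      apply hm₀ _ hn
      refine ⟨fun l => (u l : ℚ), fun i => ?_⟩
      have h7 := h6.1 i
      rw [Pi.add_apply, Pi.smul_apply, smul_eq_mul] at h7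
      linarith
    have h2 := (𝒱.X.h0_le ((m : ℚ) • E + A)).trans ((hA m).trans (hA' _))
    rw [h1] at h2
    exact le_antisymm h2 zero_le

end TW

end Pool.Agent.Helper92.Tor
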