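import Pool.Agent.Helper92.Tor.Comp
import Pool.Agent.Helper92.Weak.Adj2
import Pool.Agent.Helper92.Ga.Main2

set_option autoImplicit false
set_option linter.unusedSectionVars false

/-! Adjoint divisors on a variety with torus action. -/

namespace Pool.Agent.Helper92.Tor

open Pool.Agent.Helper92.Weak Pool.Agent.Helper92.Ga MvPolynomial Filter

namespace TW

variable {k K L : Type*} [Field k] [Field K] [Field L] [Algebra k K] [Algebra k L] [Algebra K L]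
  [IsScalarTower k K L] {r : ℕ} {t : Fin r → L} {𝒱 : TW k K t} [IsAlgClosed k] [CharZero k]

/-- A polynomial with given zeros along the non-invariant divisors. -/
lemma exists_poly (A : 𝒱.X.Div) (hA : ∀ P, 0 ≤ A P) (hint : 𝒱.X.IsInt A) :
    ∃ f : MvPolynomial (Fin r) K, f ≠ 0 ∧ ∀ P : 𝒱.X.primeDivisors, ¬ IsInv 𝒱.ht P.1 →
      (P.1 (aeval t f) : ℚ) = A P := by
  classical
  -- the polynomials
  have hq : ∀ P : 𝒱.X.primeDivisors, ∃ q : MvPolynomial (Fin r) K, q ≠ 0 ∧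
      ∀ P' : 𝒱.X.primeDivisors, ¬ IsInv 𝒱.ht P'.1 → P'.1 (aeval t q) = if P' = P then 1 else 0 := by
    intro P
    by_cases hP : IsInv 𝒱.ht P.1
    · refine ⟨1, one_ne_zero, fun P' hP' => ?_⟩
      rw [map_one, DVal.map_one, if_neg]
      rintro rfl
      exact hP' hP
    · obtain ⟨p, hp, hPp, hi⟩ := exists_polyVal 𝒱.stable P.2 hP
      refine ⟨p, hp.ne_zero, fun P' hP' => ?_⟩
      split_ifs with h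
      · rw [h, hPp, polyVal_self]
      · obtain ⟨p', hp', hPp', hi'⟩ := exists_polyVal 𝒱.stable P'.2 hP'
        rw [hPp']
        apply polyVal_eq_zero
        intro hdvd
        apply h
        apply Subtype.ext
        rw [hPp, hPp']
        exact (polyVal_eq_of_associated 𝒱.ht hp hp' hdvd).symm
  choose q hq0 hq using hq
  refine ⟨∏ P ∈ A.support, q P ^ (A P).num.toNat, ?_, fun P hP => ?_⟩
  · rw [Finset.prod_ne_zero_iff]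
    exact fun P _ => pow_ne_zero _ (hq0 P)
  · have hinj : ∀ P, aeval t (q P) ≠ 0 := fun P h => hq0 P (𝒱.ht.indep (by rw [h, map_zero]))
    rw [map_prod, DVal.map_prod]
    · have h1 : ∀ P' ∈ A.support, P.1 (aeval t (q P' ^ (A P').num.toNat)) =
          if P = P' then ((A P').num.toNat : ℤ) else 0 := by
        intro P' _
        rw [map_pow, DVal.map_pow, hq P' P hP]
        split_ifs <;> simp
      rw [Finset.sum_congr rfl h1, Finset.sum_ite_eq]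
      obtain ⟨z, hz⟩ := hint P
      have hz0 : 0 ≤ z := by
        have := hA P
        rw [hz] at this
        exact_mod_cast this
      split_ifs with h
      · rw [hz, Rat.num_intCast, Int.toNat_of_nonneg hz0]
      · rw [Finsupp.notMem_support_iff] at h
        rw [h]
        simp
    · intro P' _
      rw [map_pow]
      exact pow_ne_zero _ (hinj P')

variable (𝒱) in
/-- The data of a log canonical pair, where `KX` is the divisor of `g ω₀`. -/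
structure Adj where
  KX : 𝒱.X.Div
  KZ : 𝒱.Z.Div
  Δ : 𝒱.X.Div
  Δ_nonneg : ∀ P, 0 ≤ Δ P
  ΔZ : 𝒱.Z.Div
  ΔZ_le : ∀ j : 𝒱.JJ, mult j * ΔZ (base j) ≤ Δ ⟨j.1, j.2.1⟩ + (mult j - 1)
  KX_int : 𝒱.X.IsInt KX
  g : L
  g_ne : g ≠ 0
  non : ∀ P : 𝒱.X.primeDivisors, ¬ IsInv 𝒱.ht P.1 → KX P = P.1 g
  vert : ∀ j : 𝒱.JJ, KX ⟨j.1, j.2.1⟩ = j.1 g + (mult j * (KZ (base j) + 1) - 1)
  qc : 𝒱.X.IsQCartier (KX + Δ)
  lc_hor : ∀ (w : Fin r → ℤ) (hw : ∃ a, ipair w a = 1) (c : ℚ),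
    𝒱.X.IsValue (wVal 𝒱 w hw) (KX + Δ) c → c ≤ wVal 𝒱 w hw g

variable {𝒜 : 𝒱.Adj}

namespace Adj

variable (𝒜) in
/-- The adjoint divisor. -/
noncomputable def E : 𝒱.X.Div := 𝒜.KX + 𝒜.Δ

lemma E_apply (P : 𝒱.X.primeDivisors) : 𝒜.E P = 𝒜.KX P + 𝒜.Δ P := rfl

variable (𝒜) in
/-- The reduction to an invariant divisor. -/
structure Data where
  M : ℕ
  M_pos : 0 < M
  int : 𝒱.X.IsInt ((M : ℚ) • 𝒜.Δ)
  φ : (Fin r → ℤ) →₀ K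
  φ_ne : φ ≠ 0
  φ_eq : ∀ P : 𝒱.X.primeDivisors, ¬ IsInv 𝒱.ht P.1 → (P.1 (ev K t φ) : ℚ) = M * 𝒜.Δ P

variable (𝒜) in
lemma exists_data : Nonempty 𝒜.Data := by
  obtain ⟨M, hM, hint⟩ := IsInt.smul_of_dvd 𝒜.Δ
  obtain ⟨f, hf, h⟩ := exists_poly ((M : ℚ) • 𝒜.Δ) (fun P => by
    rw [Finsupp.smul_apply, smul_eq_mul]
    exact mul_nonneg (by positivity) (𝒜.Δ_nonneg P)) hint
  obtain ⟨φ, hφ⟩ := exists_ev_eq t f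
  refine ⟨⟨M, hM, hint, φ, ?_, fun P hP => ?_⟩⟩
  · rintro rfl
    rw [map_zero] at hφ
    exact hf (𝒱.ht.indep (by rw [← hφ, map_zero]))
  · rw [hφ, h P hP, Finsupp.smul_apply, smul_eq_mul]

variable (𝒟 : 𝒜.Data)

namespace Data

lemma ev_ne : ev K t 𝒟.φ ≠ 0 := fun h => 𝒟.φ_ne (ev_injective 𝒱.ht (by rw [h, map_zero]))

lemma gG_ne : 𝒜.g ^ 𝒟.M * ev K t 𝒟.φ ≠ 0 := mul_ne_zero (pow_ne_zero _ 𝒜.g_ne) 𝒟.ev_ne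

lemma gG_val (v : DVal k L) :
    (v (𝒜.g ^ 𝒟.M * ev K t 𝒟.φ) : ℚ) = 𝒟.M * v 𝒜.g + v (ev K t 𝒟.φ) := by
  rw [DVal.map_mul _ (pow_ne_zero _ 𝒜.g_ne) 𝒟.ev_ne, DVal.map_pow]
  push_cast
  rfl

/-- The invariant divisor. -/
noncomputable def red : Red 𝒜.E where
  M := 𝒟.M
  M_pos := 𝒟.M_pos
  int := by
    unfold E
    rw [smul_add]
    exact (𝒜.KX_int.nsmul _).add 𝒟.int
  G := 𝒜.g ^ 𝒟.M * ev K t 𝒟.φ
  G_ne := 𝒟.gG_ne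
  D := (𝒟.M : ℚ) • 𝒜.E - 𝒱.X.prin (𝒜.g ^ 𝒟.M * ev K t 𝒟.φ)
  D_eq P := by rw [Finsupp.sub_apply, Finsupp.smul_apply, ProjVar.prin_apply, smul_eq_mul]
  inv P hP := by
    rw [Finsupp.sub_apply, Finsupp.smul_apply, ProjVar.prin_apply, smul_eq_mul, 𝒟.gG_val,
      𝒜.E_apply, 𝒜.non P hP, 𝒟.φ_eq P hP]
    ring

lemma red_D (P : 𝒱.X.primeDivisors) :
    𝒟.red.D P = 𝒟.M * 𝒜.E P - (𝒟.M * P.1 𝒜.g + P.1 (ev K t 𝒟.φ)) := by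
  have h := 𝒟.red.D_eq P
  have h2 : (𝒟.red.M : ℚ) = 𝒟.M := rfl
  have h3 : (P.1 𝒟.red.G : ℚ) = 𝒟.M * P.1 𝒜.g + P.1 (ev K t 𝒟.φ) := 𝒟.gG_val P.1
  rw [h, h2, h3]

/-- Values. -/
lemma value_red {v : DVal k L} {x : ℚ} (hx : 𝒱.X.IsValue v (𝒜.KX + 𝒜.Δ) x) :
    𝒱.X.IsValue v 𝒟.red.D (𝒟.M * x - (𝒟.M * v 𝒜.g + v (ev K t 𝒟.φ))) := by
  have h1 := (hx.smul (𝒟.M : ℚ)).add
    ((ProjVar.IsValue.prin (X := 𝒱.X) (v := v) 𝒟.gG_ne).smul (-1))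
  have h2 : (𝒟.M : ℚ) • (𝒜.KX + 𝒜.Δ) + (-1 : ℚ) • 𝒱.X.prin (𝒜.g ^ 𝒟.M * ev K t 𝒟.φ) =
      𝒟.red.D := by
    rw [neg_one_smul, ← sub_eq_add_neg]
    rfl
  rw [h2, 𝒟.gG_val] at h1
  have h3 : (𝒟.M : ℚ) * x + -1 * (𝒟.M * v 𝒜.g + v (ev K t 𝒟.φ)) =
      𝒟.M * x - (𝒟.M * v 𝒜.g + v (ev K t 𝒟.φ)) := by ring
  rwa [h3] at h1

/-- The support of the polynomial. -/
noncomputable def S : Finset (Fin r → ℤ) := 𝒟.φ.support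

lemma mem_S {b : Fin r → ℤ} : b ∈ 𝒟.S ↔ 𝒟.φ b ≠ 0 := Finsupp.mem_support_iff

lemma S_nonempty : 𝒟.S.Nonempty := by
  unfold S
  rw [Finset.nonempty_iff_ne_empty, Ne, Finsupp.support_eq_empty]
  exact 𝒟.φ_ne

variable {W : Finset (Fin r → ℤ)} {hW : ∀ u : Fin r → ℚ, (∀ w ∈ W, 0 ≤ pairL w u) → u = 0}

/-- The extension of the divisor. -/
structure Ext (hW1 : ∀ w ∈ W, ∃ a, ipair w a = 1)
    (D' : (𝒱.HH ⊕ {w // w ∈ W}) ⊕ (𝒱.JJ ⊕ 𝒱.NN) → ℚ) : Prop where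
  isExt : IsExt 𝒟.red.D hW1 D'
  le_w : ∀ w : {w // w ∈ W}, D' (Sum.inl (Sum.inr w)) ≤
    -(wVal 𝒱 w.1 (hW1 w.1 w.2) (ev K t 𝒟.φ) : ℚ)
  le_Q : ∀ Q : 𝒱.NN, 𝒟.M * (𝒜.KZ Q.1 + 𝒜.ΔZ Q.1) + ∑ b ∈ 𝒟.S, |(Q.1.1 (𝒟.φ b) : ℚ)| ≤
    D' (Sum.inr (Sum.inr Q))

lemma exists_ext (hW1 : ∀ w ∈ W, ∃ a, ipair w a = 1) : ∃ D', 𝒟.Ext hW1 D' := by
  classical
  have hM : (0 : ℚ) < 𝒟.M := by exact_mod_cast 𝒟.M_pos
  choose x hx using fun w : {w // w ∈ W} => 𝒜.qc.exists_value (wVal 𝒱 w.1 (hW1 w.1 w.2))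
  choose y hy using fun Q : 𝒱.NN => 𝒜.qc.exists_value (gaussVal 𝒱.ht Q.1.1)
  refine ⟨res 𝒟.red.D (fun w => 𝒟.M * x w - (𝒟.M * wVal 𝒱 w.1 (hW1 w.1 w.2) 𝒜.g +
    wVal 𝒱 w.1 (hW1 w.1 w.2) (ev K t 𝒟.φ))) (fun Q => max (𝒟.M * y Q - (𝒟.M *
      gaussVal 𝒱.ht Q.1.1 𝒜.g + gaussVal 𝒱.ht Q.1.1 (ev K t 𝒟.φ)))
      (𝒟.M * (𝒜.KZ Q.1 + 𝒜.ΔZ Q.1) + ∑ b ∈ 𝒟.S, |(Q.1.1 (𝒟.φ b) : ℚ)|)), ⟨?_, ?_, ?_, ?_⟩, ?_, ?_⟩
  · intro i; rfl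
  · intro w
    exact 𝒟.value_red (hx w)
  · intro j; rfl
  · intro Q
    exact ⟨_, 𝒟.value_red (hy Q), le_max_left _ _⟩
  · intro w
    have h1 := 𝒜.lc_hor w.1 (hW1 w.1 w.2) (x w) (hx w)
    have h2 := mul_le_mul_of_nonneg_left h1 hM.le
    change 𝒟.M * x w - (𝒟.M * wVal 𝒱 w.1 (hW1 w.1 w.2) 𝒜.g +
      wVal 𝒱 w.1 (hW1 w.1 w.2) (ev K t 𝒟.φ)) ≤ _
    linarith
  · intro Q
    exact le_max_right _ _

variable {𝒟} {hW1 : ∀ w ∈ W, ∃ a, ipair w a = 1}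
  {D' : (𝒱.HH ⊕ {w // w ∈ W}) ⊕ (𝒱.JJ ⊕ 𝒱.NN) → ℚ}

/-- Comparison along horizontal valuations. -/
lemma Ext.le_hor (hD' : 𝒟.Ext hW1 D') {u : Fin r → ℚ} (hu : InP (𝒱.ext W hW) D' u) :
    ∀ w ∈ W, ∃ b ∈ 𝒟.S, pairL w (toQ b) ≤ pairL w u := by
  intro w hw
  obtain ⟨b, hb, h1⟩ := wVal_ev (𝒱 := 𝒱) w (hW1 w hw) 𝒟.φ_ne
  refine ⟨b, 𝒟.mem_S.2 hb, ?_⟩
  have h2 := hu (Sum.inr ⟨w, hw⟩)
  change 0 ≤ pairL w u + _ at h2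
  have h3 := hD'.le_w ⟨w, hw⟩
  change _ ≤ -(wVal 𝒱 w (hW1 w hw) (ev K t 𝒟.φ) : ℚ) at h3
  rw [h1, ipair_cast] at h3
  change pairL w (fun l => (b l : ℚ)) ≤ _
  linarith

/-- Effectivity. -/
lemma Ext.eff (hD' : 𝒟.Ext hW1 D') {u : Fin r → ℚ} {τ : (Fin r → ℤ) → ℚ}
    (hτ : τ ∈ verts 𝒟.S u) (j : 𝒱.JJ ⊕ 𝒱.NN) :
    ((𝒱.ext W hW).e j : ℚ) * (𝒟.M * (𝒜.KZ ((𝒱.ext W hW).base j) +
      𝒜.ΔZ ((𝒱.ext W hW).base j)) - ∑ b ∈ 𝒟.S, τ b * ((𝒱.ext W hW).base j).1 (𝒟.φ b)) ≤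
      pairL ((𝒱.ext W hW).w j) u + D' (Sum.inr j) := by
  obtain ⟨h1, h2, h3, h4, -⟩ := hτ
  have hM0 : (0 : ℚ) < 𝒟.M := by exact_mod_cast 𝒟.M_pos
  rcases j with j | Q
  · change (mult j : ℚ) * (𝒟.M * (𝒜.KZ (base j) + 𝒜.ΔZ (base j)) -
      ∑ b ∈ 𝒟.S, τ b * (base j).1 (𝒟.φ b)) ≤
      pairL (TV.wvec j.1 t) u + D' (Sum.inr (Sum.inl j))
    have hj1 : (1 : ℚ) ≤ mult j := by exact_mod_cast mult_pos j
    -- the value of the polynomial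
    have h5 : (j.1 (ev K t 𝒟.φ) : ℚ) ≤
        mult j * ∑ b ∈ 𝒟.S, τ b * (base j).1 (𝒟.φ b) + pairL (TV.wvec j.1 t) u := by
      have h6 : ∀ b ∈ 𝒟.S, (j.1 (ev K t 𝒟.φ) : ℚ) ≤
          mult j * (base j).1 (𝒟.φ b) + pairL (TV.wvec j.1 t) (toQ b) := by
        intro b hb
        have h7 := (𝒱.vert_inv j).le_term 𝒟.φ b (𝒟.mem_S.1 hb)
        rw [𝒱.vert_term j (𝒟.mem_S.1 hb)] at h7
        have h8 : (j.1 (ev K t 𝒟.φ) : ℚ) ≤ ((mult j * (base j).1 (𝒟.φ b) +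
            ipair (TV.wvec j.1 t) b : ℤ) : ℚ) := by exact_mod_cast h7
        push_cast at h8
        rw [ipair_cast] at h8
        exact h8
      calc (j.1 (ev K t 𝒟.φ) : ℚ) = ∑ b ∈ 𝒟.S, τ b * (j.1 (ev K t 𝒟.φ) : ℚ) := by
            rw [← Finset.sum_mul, h3, one_mul]
        _ ≤ ∑ b ∈ 𝒟.S, τ b * (mult j * (base j).1 (𝒟.φ b) + pairL (TV.wvec j.1 t) (toQ b)) :=
            Finset.sum_le_sum fun b hb => mul_le_mul_of_nonneg_left (h6 b hb) (h1 b)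
        _ = mult j * ∑ b ∈ 𝒟.S, τ b * (base j).1 (𝒟.φ b) + pairL (TV.wvec j.1 t) u := by
            rw [← h4, map_sum, Finset.mul_sum, ← Finset.sum_add_distrib]
            refine Finset.sum_congr rfl fun b _ => ?_
            rw [map_smul, smul_eq_mul]
            ring
    have h6 : D' (Sum.inr (Sum.inl j)) = 𝒟.M * ((mult j * (𝒜.KZ (base j) + 1) - 1) +
        𝒜.Δ ⟨j.1, j.2.1⟩) - j.1 (ev K t 𝒟.φ) := by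
      rw [hD'.isExt.hj, 𝒟.red_D, 𝒜.E_apply, 𝒜.vert]
      ring
    have h7 := 𝒜.ΔZ_le j
    rw [h6]
    have h8 : (0 : ℚ) ≤ 𝒟.M * (mult j - 1 + 𝒜.Δ ⟨j.1, j.2.1⟩ - mult j * 𝒜.ΔZ (base j)) :=
      mul_nonneg hM0.le (by linarith)
    linarith
  · change (((1 : ℕ) : ℚ)) * (𝒟.M * (𝒜.KZ Q.1 + 𝒜.ΔZ Q.1) -
      ∑ b ∈ 𝒟.S, τ b * Q.1.1 (𝒟.φ b)) ≤
      pairL (0 : Fin r → ℤ) u + D' (Sum.inr (Sum.inr Q))
    rw [pairL_zero, LinearMap.zero_apply, zero_add, Nat.cast_one, one_mul]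
    refine le_trans ?_ (hD'.le_Q Q)
    have h5 : -∑ b ∈ 𝒟.S, τ b * (Q.1.1 (𝒟.φ b) : ℚ) ≤ ∑ b ∈ 𝒟.S, |(Q.1.1 (𝒟.φ b) : ℚ)| := by
      rw [← Finset.sum_neg_distrib]
      refine Finset.sum_le_sum fun b hb => ?_
      have h6 : τ b ≤ 1 := by
        rw [← h3]
        exact Finset.single_le_sum (f := τ) (fun b _ => h1 b) hb
      have h7 := neg_abs_le (Q.1.1 (𝒟.φ b) : ℚ)
      have h8 := abs_nonneg (Q.1.1 (𝒟.φ b) : ℚ)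
      have h9 := mul_le_mul_of_nonneg_right h6 h8
      have h10 := mul_le_mul_of_nonneg_left h7 (h1 b)
      linarith
    linarith

/-- Every point of the polytope is effective. -/
lemma Ext.hEff (hD' : 𝒟.Ext hW1 D')
    (hW2 : ∀ u : Fin r → ℚ, (∀ w ∈ W, ∃ b ∈ 𝒟.S, pairL w (toQ b) ≤ pairL w u) →
      ∃ τ, τ ∈ verts 𝒟.S u)
    {mη : ℕ} (hmη : 0 < mη) {η : K} (hη : η ≠ 0)
    (h : ∀ Q : 𝒱.QQ, 0 ≤ (Q.1 η : ℚ) + mη * (𝒜.KZ Q + 𝒜.ΔZ Q)) {u : Fin r → ℚ}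
    (hu : InP (𝒱.ext W hW) D' u) :
    ∃ T : ℕ, 0 < T ∧ ∃ g : K, g ≠ 0 ∧
      g ∈ (𝒱.ext W hW).wt ((T : ℚ) • D') ((T : ℚ) • u) := by
  classical
  obtain ⟨τ, hτ⟩ := hW2 u (hD'.le_hor hu)
  obtain ⟨q, hq, hqτ⟩ := exists_common_den 𝒟.S τ
  choose! z hz using hqτ
  have hφb : ∀ b ∈ 𝒟.S, 𝒟.φ b ≠ 0 := fun b hb => 𝒟.mem_S.1 hb
  refine ⟨mη * q, Nat.mul_pos hmη hq,
    η ^ (𝒟.M * q) * ∏ b ∈ 𝒟.S, 𝒟.φ b ^ ((mη : ℤ) * z b), ?_, ?_⟩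
  · apply mul_ne_zero (pow_ne_zero _ hη)
    rw [Finset.prod_ne_zero_iff]
    exact fun b hb => zpow_ne_zero _ (hφb b hb)
  · have hne : ∏ b ∈ 𝒟.S, 𝒟.φ b ^ ((mη : ℤ) * z b) ≠ 0 := by
      rw [Finset.prod_ne_zero_iff]
      exact fun b hb => zpow_ne_zero _ (hφb b hb)
    rw [TData.mem_wt (mul_ne_zero (pow_ne_zero _ hη) hne)]
    have hT0 : (0 : ℚ) ≤ ((mη * q : ℕ) : ℚ) := by positivity
    refine ⟨fun i => ?_, fun j => ?_⟩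
    · have h1 := hu i
      have h2 := mul_nonneg hT0 h1
      rw [map_smul, Pi.smul_apply, smul_eq_mul, smul_eq_mul]
      linarith
    · have h1 := hD'.eff (hW := hW) hτ j
      have h2 := mul_le_mul_of_nonneg_left h1 hT0
      set Q : 𝒱.QQ := (𝒱.ext W hW).base j with hQ
      have h3 : (Q.1 (η ^ (𝒟.M * q) * ∏ b ∈ 𝒟.S, 𝒟.φ b ^ ((mη : ℤ) * z b)) : ℚ) =
          (𝒟.M * q) * Q.1 η + (mη * q) * ∑ b ∈ 𝒟.S, τ b * Q.1 (𝒟.φ b) := by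
        rw [DVal.map_mul _ (pow_ne_zero _ hη) hne, DVal.map_pow, DVal.map_prod _ _ _ (fun b hb =>
          zpow_ne_zero _ (hφb b hb))]
        push_cast
        congr 1
        rw [Finset.mul_sum]
        refine Finset.sum_congr rfl fun b hb => ?_
        rw [DVal.map_zpow]
        push_cast
        rw [← hz b hb]
        ring
      have h4 := h Q
      have hj0 : (0 : ℚ) ≤ (𝒱.ext W hW).e j := by positivity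
      change 0 ≤ ((𝒱.ext W hW).e j : ℚ) * (Q.1 _ : ℚ) + _
      rw [h3, map_smul, Pi.smul_apply, smul_eq_mul, smul_eq_mul]
      have h5 : (0 : ℚ) ≤ (𝒱.ext W hW).e j * ((𝒟.M * q) * (Q.1 η +
          mη * (𝒜.KZ Q + 𝒜.ΔZ Q))) :=
        mul_nonneg hj0 (mul_nonneg (by positivity) h4)
      push_cast at h2 ⊢
      linarith

end Data

end Adj

variable (𝒜)

/-- The comparison theorem for adjoint divisors. -/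
theorem adj_main {N₃ : ℕ} (hN₃ : 0 < N₃) {η : K} (hη : η ≠ 0)
    (hη2 : ∀ Q : 𝒱.QQ, 0 ≤ (Q.1 η : ℚ) + N₃ * (𝒜.KZ Q + 𝒜.ΔZ Q)) :
    (𝒱.X.kod (𝒜.KX + 𝒜.Δ) = ⊥ ∧ 𝒱.X.nu (𝒜.KX + 𝒜.Δ) = ⊥) ∨
    ∃ (s : ℕ) (B : 𝒱.Z.Div), s ≤ r ∧ (∀ Q, 0 ≤ B Q) ∧ ∀ ε : ℚ, 0 < ε →
      𝒱.X.kod (𝒜.KX + 𝒜.Δ) = s + 𝒱.Z.kod (𝒜.KZ + 𝒜.ΔZ + ε • B) ∧
      𝒱.X.nu (𝒜.KX + 𝒜.Δ) = s + 𝒱.Z.nu (𝒜.KZ + 𝒜.ΔZ + ε • B) := by
  classical
  have : Finite 𝒱.HH := 𝒱.hor_finite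
  let _ : Fintype 𝒱.HH := Fintype.ofFinite _
  obtain ⟨𝒟⟩ := 𝒜.exists_data
  obtain ⟨W, hW1, hW, hW2⟩ := exists_W 𝒟.S 𝒟.S_nonempty
  obtain ⟨D', hD'⟩ := 𝒟.exists_ext hW1
  by_cases hP : ∃ u, InP (𝒱.ext W hW) D' u
  swap
  · exact Or.inl (empty_case 𝒟.red hD'.isExt hP)
  right
  have hfin' := hD'.isExt.finite 𝒟.red.finite
  obtain ⟨u₀, hu₀, hG⟩ := exists_geom (𝒱.ext W hW) D' hfin'
    (fun u hu => hD'.hEff hW2 hN₃ hη hη2 hu) hP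
  obtain ⟨τ, hτ⟩ := hW2 u₀ (hD'.le_hor hu₀)
  obtain ⟨T₀, hT₀, hTden⟩ := exists_common_den 𝒟.S τ
  obtain ⟨𝒢, h𝒢u, hT⟩ := hG (T₀ * N₃) (Nat.mul_pos hT₀ hN₃)
  have hTpos : (0 : ℚ) < 𝒢.T := by exact_mod_cast 𝒢.T_pos
  have hTint : ∀ b ∈ 𝒟.S, ∃ n : ℤ, (𝒢.T : ℚ) * τ b = n := by
    intro b hb
    obtain ⟨z, hz⟩ := hTden b hb
    obtain ⟨q, hq⟩ := hT
    refine ⟨N₃ * q * z, ?_⟩
    rw [hq]
    push_cast
    rw [← hz]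
    ring
  -- the divisor on the base
  have hfin := G₀_finite hfin' 𝒢
  let DZ : 𝒱.Z.Div := Finsupp.onFinset hfin.toFinset 𝒢.G₀ (by
    intro q hq
    rw [Set.Finite.mem_toFinset]
    exact hq)
  have hDZ : ∀ q, DZ q = 𝒢.G₀ q := fun q => rfl
  have hDZ' : ∀ q, DZ q = 𝒢.T * (𝒱.ext W hW).low D' u₀ q := by
    intro q
    rw [hDZ, ← h𝒢u]
    rfl
  have hDZint : 𝒱.Z.IsInt DZ := fun q => 𝒢.int_low q
  have hφ0 : ∀ b ∈ 𝒟.S, 𝒟.φ b ≠ 0 := fun b hb => 𝒟.mem_S.1 hb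
  -- the function
  obtain ⟨ψ, hψ0, hψ1⟩ : ∃ ψ : K, ψ ≠ 0 ∧ ∀ Q : 𝒱.QQ, (Q.1 ψ : ℚ) =
      𝒢.T * ∑ b ∈ 𝒟.S, τ b * Q.1 (𝒟.φ b) := by
    choose! n hn using hTint
    refine ⟨∏ b ∈ 𝒟.S, 𝒟.φ b ^ n b, ?_, fun Q => ?_⟩
    · rw [Finset.prod_ne_zero_iff]
      exact fun b hb => zpow_ne_zero _ (hφ0 b hb)
    · rw [DVal.map_prod _ _ _ (fun b hb => zpow_ne_zero _ (hφ0 b hb)), Finset.mul_sum]
      push_cast
      refine Finset.sum_congr rfl fun b hb => ?_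
      rw [DVal.map_zpow]
      push_cast
      rw [← hn b hb]
      ring
  have hcomp := comparison 𝒟.red hD'.isExt 𝒢 DZ hDZ
  set N : ℕ := 𝒢.T * 𝒟.M with hN
  set B : 𝒱.Z.Div := DZ + 𝒱.Z.prin ψ - (N : ℚ) • (𝒜.KZ + 𝒜.ΔZ) with hB
  have hB0 : ∀ Q, 0 ≤ B Q := by
    intro Q
    rw [hB, Finsupp.sub_apply, Finsupp.add_apply, Finsupp.smul_apply, Finsupp.add_apply,
      smul_eq_mul, ProjVar.prin_apply, hψ1, hDZ', hN]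
    have h1 : 𝒟.M * (𝒜.KZ Q + 𝒜.ΔZ Q) - ∑ b ∈ 𝒟.S, τ b * Q.1 (𝒟.φ b) ≤
        (𝒱.ext W hW).low D' u₀ Q := by
      rw [TData.le_low_iff]
      rintro j rfl
      exact hD'.eff hτ j
    have h2 := mul_le_mul_of_nonneg_left h1 hTpos.le
    push_cast
    linarith
  refine ⟨𝒢.s, B, ?_, hB0, fun ε hε => ?_⟩
  · -- `s ≤ r`
    have h1 := Module.finrank_eq_card_basis 𝒢.b
    rw [Module.finrank_fin_fun, Fintype.card_sum, Fintype.card_fin, Fintype.card_fin] at h1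
    omega
  · have h1 := kod_nu_eps (Z := 𝒱.Z) (T := 𝒜.KZ + 𝒜.ΔZ) (B := B) (DZ := DZ + 𝒱.Z.prin ψ)
      (N := N) (N₃ := N₃) (Nat.mul_pos 𝒢.T_pos 𝒟.M_pos) hN₃ (fun Q => by
        rw [hB, Finsupp.sub_apply, Finsupp.smul_apply, smul_eq_mul]
        ring) hB0 (hDZint.add (𝒱.Z.isInt_prin ψ)) hη (fun Q => hη2 Q)
      (((Dvd.intro_left T₀ rfl).trans hT).mul_right _) hε
    have h2 := hcomp.kod_eq
    have h3 := hcomp.nu_eq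
    change 𝒱.X.kod (𝒜.KX + 𝒜.Δ) = _ at h2
    change 𝒱.X.nu (𝒜.KX + 𝒜.Δ) = _ at h3
    rw [h2, h3, h1.kod_eq, h1.nu_eq, ProjVar.kod_add_prin _ hψ0, ProjVar.nu_add_prin _ hψ0]
    simp

end TW

end Pool.Agent.Helper92.Tor
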