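import Pool.Agent.Helper92.Tor.Struct

set_option autoImplicit false
set_option linter.unusedSectionVars false

/-! Sections of divisors without non-invariant components. -/

namespace Pool.Agent.Helper92.Tor

open Pool.Agent.Helper92.Weak Pool.Agent.Helper92.Ga MvPolynomial Filter

namespace TW

variable {k K L : Type*} [Field k] [Field K] [Field L] [Algebra k K] [Algebra k L] [Algebra K L]
  [IsScalarTower k K L] {r : ℕ} {t : Fin r → L} {𝒱 : TW k K t} [IsAlgClosed k] [CharZero k]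

lemma norm_of {w : Fin r → ℤ} (hw : ∃ a, ipair w a = 1) :
    ∃ (c : K) (u : Fin r → ℤ), c ≠ 0 ∧ (ZVal.trivial k K) c + ipair w u = 1 := by
  obtain ⟨a, ha⟩ := hw
  refine ⟨1, a, one_ne_zero, ?_⟩
  change 0 + _ = _
  rw [zero_add, ha]

/-- The valuation of a one parameter subgroup. -/
noncomputable def wVal (𝒱 : TW k K t) (w : Fin r → ℤ) (hw : ∃ a, ipair w a = 1) : DVal k L :=
  monoVal 𝒱.ht (ZVal.trivial k K) w (norm_of hw)

lemma wVal_ev (w : Fin r → ℤ) (hw : ∃ a, ipair w a = 1) {f : (Fin r → ℤ) →₀ K} (hf : f ≠ 0) :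
    ∃ u, f u ≠ 0 ∧ wVal 𝒱 w hw (ev K t f) = ipair w u := by
  obtain ⟨u, hu, h⟩ := exists_gaussN (v := (ZVal.trivial k K : ZVal k K)) (w := w) hf
  refine ⟨u, hu, ?_⟩
  unfold wVal
  rw [monoVal_ev _ _ _ _ hf, h]
  change 0 + _ = _
  rw [zero_add]

lemma wVal_ev_le (w : Fin r → ℤ) (hw : ∃ a, ipair w a = 1) {f : (Fin r → ℤ) →₀ K}
    {u : Fin r → ℤ} (hu : f u ≠ 0) : wVal 𝒱 w hw (ev K t f) ≤ ipair w u := by
  have hf : f ≠ 0 := by rintro rfl; exact hu rfl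
  have h := gaussN_le (v := (ZVal.trivial k K : ZVal k K)) (w := w) hu
  unfold wVal
  rw [monoVal_ev _ _ _ _ hf]
  refine h.trans ?_
  change 0 + _ ≤ _
  rw [zero_add]

/-- The divisor has no non-invariant components. -/
def InvDiv (D : 𝒱.X.Div) : Prop := ∀ P : 𝒱.X.primeDivisors, ¬ IsInv 𝒱.ht P.1 → D P = 0

lemma InvDiv.add {D D' : 𝒱.X.Div} (h : InvDiv D) (h' : InvDiv D') : InvDiv (D + D') := by
  intro P hP
  rw [Finsupp.add_apply, h P hP, h' P hP, add_zero]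

lemma InvDiv.smul {D : 𝒱.X.Div} (h : InvDiv D) (c : ℚ) : InvDiv (c • D) := by
  intro P hP
  rw [Finsupp.smul_apply, h P hP, smul_zero]

/-- The trichotomy of prime divisors. -/
lemma tricho (𝒱 : TW k K t) (P : DVal k L) (hP : P ∈ 𝒱.X.primeDivisors) :
    ¬ IsInv 𝒱.ht P ∨ (∃ i : 𝒱.HH, i.1 = P) ∨ ∃ j : 𝒱.JJ, j.1 = P := by
  by_cases h1 : IsInv 𝒱.ht P
  · right
    by_cases h2 : ∀ a : K, P (algebraMap K L a) = 0
    · left
      exact ⟨⟨P, hP, h1, h2⟩, rfl⟩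
    · right
      push Not at h2
      exact ⟨⟨P, hP, h2⟩, rfl⟩
  · exact Or.inl h1

lemma exists_ev_of_sec {D : 𝒱.X.Div} (hD : InvDiv D) {z : L}
    (hz : z ∈ 𝒱.X.H0 D) : ∃ f : (Fin r → ℤ) →₀ K, z = ev K t f := by
  apply exists_ev_of_nonneg 𝒱.fgK 𝒱.stable
  intro P hP hni
  unfold ProjVar.H0 at hz
  rw [mem_sec] at hz
  have h1 := hz ⟨P, hP⟩
  rw [hD _ hni, neg_zero] at h1
  exact (P.mem_ring_iff_ge).2 h1

/-- The combinatorial divisor of a divisor. -/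
noncomputable def res {W : Finset (Fin r → ℤ)} (D : 𝒱.X.Div) (dW : {w // w ∈ W} → ℚ)
    (dN : 𝒱.NN → ℚ) : (𝒱.HH ⊕ {w // w ∈ W}) ⊕ (𝒱.JJ ⊕ 𝒱.NN) → ℚ :=
  Sum.elim (Sum.elim (fun i => D ⟨i.1, i.2.1⟩) dW) (Sum.elim (fun j => D ⟨j.1, j.2.1⟩) dN)

variable {W : Finset (Fin r → ℤ)} {hW : ∀ u : Fin r → ℚ, (∀ w ∈ W, 0 ≤ pairL w u) → u = 0}

lemma wt_HH {D : (𝒱.HH ⊕ {w // w ∈ W}) ⊕ (𝒱.JJ ⊕ 𝒱.NN) → ℚ} {u : Fin r → ℤ} {f : K}
    (hf : f ≠ 0) : f ∈ (𝒱.ext W hW).wt D (fun l => (u l : ℚ)) ↔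
      (∀ i : 𝒱.HH, 0 ≤ pairL (TV.wvec i.1 t) (fun l => (u l : ℚ)) + D (Sum.inl (Sum.inl i))) ∧
      (∀ w : {w // w ∈ W}, 0 ≤ pairL w.1 (fun l => (u l : ℚ)) + D (Sum.inl (Sum.inr w))) ∧
      (∀ j : 𝒱.JJ, 0 ≤ (mult j : ℚ) * ((base j).1 f : ℚ) +
        (pairL (TV.wvec j.1 t) (fun l => (u l : ℚ)) + D (Sum.inr (Sum.inl j)))) ∧
      ∀ Q : 𝒱.NN, 0 ≤ (Q.1.1 f : ℚ) + D (Sum.inr (Sum.inr Q)) := by
  rw [TData.mem_wt hf]
  constructor
  · rintro ⟨h1, h2⟩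
    refine ⟨fun i => h1 (Sum.inl i), fun w => h1 (Sum.inr w), fun j => h2 (Sum.inl j),
      fun Q => ?_⟩
    have h3 := h2 (Sum.inr Q)
    change 0 ≤ (((1 : ℕ) : ℚ)) * (Q.1.1 f : ℚ) + (pairL (0 : Fin r → ℤ) _ + _) at h3
    rw [pairL_zero] at h3
    simpa using h3
  · rintro ⟨h1, h2, h3, h4⟩
    refine ⟨fun i => ?_, fun j => ?_⟩
    · cases i with
      | inl i => exact h1 i
      | inr w => exact h2 w
    · cases j with
      | inl j => exact h3 j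
      | inr Q =>
        have h5 := h4 Q
        change 0 ≤ (((1 : ℕ) : ℚ)) * (Q.1.1 f : ℚ) + (pairL (0 : Fin r → ℤ) _ + _)
        rw [pairL_zero]
        simpa using h5

/-- Combinatorial sections are sections. -/
lemma ev_mem_of {D A : 𝒱.X.Div} (hD : InvDiv D) (hA : InvDiv A)
    {D' A' : (𝒱.HH ⊕ {w // w ∈ W}) ⊕ (𝒱.JJ ⊕ 𝒱.NN) → ℚ}
    (hi : ∀ i : 𝒱.HH, D' (Sum.inl (Sum.inl i)) ≤ D ⟨i.1, i.2.1⟩)
    (hj : ∀ j : 𝒱.JJ, D' (Sum.inr (Sum.inl j)) ≤ D ⟨j.1, j.2.1⟩)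
    (hi' : ∀ i : 𝒱.HH, A' (Sum.inl (Sum.inl i)) ≤ A ⟨i.1, i.2.1⟩)
    (hj' : ∀ j : 𝒱.JJ, A' (Sum.inr (Sum.inl j)) ≤ A ⟨j.1, j.2.1⟩) (n : ℕ)
    {h : (Fin r → ℤ) →₀ K} (hh : h ∈ (𝒱.ext W hW).secT ((n : ℚ) • D' + A')) :
    ev K t h ∈ 𝒱.X.H0 ((n : ℚ) • D + A) := by
  have hn : (0 : ℚ) ≤ n := by positivity
  unfold ProjVar.H0
  rw [mem_sec]
  intro P
  rw [ev_apply]
  apply DVal.Ge.sum
  intro u hu
  have hu' : h u ≠ 0 := Finsupp.mem_support_iff.1 hu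
  have hne : h u • mono t u ≠ 0 := smul_ne_zero hu' (𝒱.ht.mono_ne u)
  have h1 := hh u
  rw [wt_HH hu'] at h1
  obtain ⟨h1, -, h2, -⟩ := h1
  rw [DVal.ge_iff hne, Finsupp.add_apply, Finsupp.smul_apply, smul_eq_mul]
  rcases 𝒱.tricho P.1 P.2 with hni | ⟨i, hi1⟩ | ⟨j, hj1⟩
  · rw [hD P hni, hA P hni, term_eq_zero 𝒱.stable P.2 hni]
    simp
  · have h3 := 𝒱.hor_term i hu' u
    have h4 : P = ⟨i.1, i.2.1⟩ := Subtype.ext hi1.symm
    subst h4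
    have h5 := h1 i
    rw [Pi.add_apply, Pi.smul_apply, smul_eq_mul] at h5
    change -(n * D ⟨i.1, i.2.1⟩ + A ⟨i.1, i.2.1⟩) ≤ (i.1 (h u • mono t u) : ℚ)
    rw [h3, ipair_cast]
    have h6 := mul_le_mul_of_nonneg_left (hi i) hn
    have h7 := hi' i
    linarith
  · have h3 := 𝒱.vert_term j hu' u
    have h4 : P = ⟨j.1, j.2.1⟩ := Subtype.ext hj1.symm
    subst h4
    have h5 := h2 j
    rw [Pi.add_apply, Pi.smul_apply, smul_eq_mul] at h5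
    change -(n * D ⟨j.1, j.2.1⟩ + A ⟨j.1, j.2.1⟩) ≤ (j.1 (h u • mono t u) : ℚ)
    rw [h3]
    push_cast
    rw [ipair_cast]
    have h6 := mul_le_mul_of_nonneg_left (hj j) hn
    have h7 := hj' j
    linarith

/-- The dimension of the space of combinatorial sections. -/
theorem sdim_le_H0 {D A : 𝒱.X.Div} (hD : InvDiv D) (hA : InvDiv A)
    {D' A' : (𝒱.HH ⊕ {w // w ∈ W}) ⊕ (𝒱.JJ ⊕ 𝒱.NN) → ℚ}
    (hi : ∀ i : 𝒱.HH, D' (Sum.inl (Sum.inl i)) ≤ D ⟨i.1, i.2.1⟩)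
    (hj : ∀ j : 𝒱.JJ, D' (Sum.inr (Sum.inl j)) ≤ D ⟨j.1, j.2.1⟩)
    (hi' : ∀ i : 𝒱.HH, A' (Sum.inl (Sum.inl i)) ≤ A ⟨i.1, i.2.1⟩)
    (hj' : ∀ j : 𝒱.JJ, A' (Sum.inr (Sum.inl j)) ≤ A ⟨j.1, j.2.1⟩) (n : ℕ) :
    sdim ((𝒱.ext W hW).secT ((n : ℚ) • D' + A')) ≤ sdim (𝒱.X.H0 ((n : ℚ) • D + A)) := by
  let F : (𝒱.ext W hW).secT ((n : ℚ) • D' + A') →ₗ[k] 𝒱.X.H0 ((n : ℚ) • D + A) :=
    { toFun := fun h => ⟨ev K t h.1, ev_mem_of hD hA hi hj hi' hj' n h.2⟩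
      map_add' := fun a b => by
        apply Subtype.ext
        change ev K t (a.1 + b.1) = _
        rw [map_add]
        rfl
      map_smul' := fun c a => by
        apply Subtype.ext
        change ev K t (c • a.1) = _
        rw [← algebraMap_smul K c a.1, map_smul, algebraMap_smul]
        rfl }
  apply sdim_le_of_injective F
  intro a b hab
  apply Subtype.ext
  exact ev_injective 𝒱.ht (congrArg Subtype.val hab)

/-- The dimension of the space of sections. -/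
theorem exists_H0_le {D : 𝒱.X.Div} (hD : InvDiv D) (hW1 : ∀ w ∈ W, ∃ a, ipair w a = 1)
    {D' : (𝒱.HH ⊕ {w // w ∈ W}) ⊕ (𝒱.JJ ⊕ 𝒱.NN) → ℚ}
    (hi : ∀ i : 𝒱.HH, D ⟨i.1, i.2.1⟩ ≤ D' (Sum.inl (Sum.inl i)))
    (hw : ∀ w : {w // w ∈ W}, 𝒱.X.IsValue (wVal 𝒱 w.1 (hW1 w.1 w.2)) D (D' (Sum.inl (Sum.inr w))))
    (hj : ∀ j : 𝒱.JJ, D ⟨j.1, j.2.1⟩ ≤ D' (Sum.inr (Sum.inl j)))
    (hQ : ∀ Q : 𝒱.NN, ∃ c, 𝒱.X.IsValue (gaussVal 𝒱.ht Q.1.1) D c ∧ c ≤ D' (Sum.inr (Sum.inr Q)))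
    (A : 𝒱.X.Div) (hA : InvDiv A) :
    ∃ A' : (𝒱.HH ⊕ {w // w ∈ W}) ⊕ (𝒱.JJ ⊕ 𝒱.NN) → ℚ,
      {j | A' (Sum.inr j) ≠ 0}.Finite ∧ (A = 0 → A' = 0) ∧ ∀ n : ℕ,
        sdim (𝒱.X.H0 ((n : ℚ) • D + A)) ≤ sdim ((𝒱.ext W hW).secT ((n : ℚ) • D' + A')) := by
  classical
  choose cw hcw0 hcw using fun w => exists_value_bound (hw w) A
  choose cQ hcQ hcQle using hQ
  choose cN hcN0 hcN using fun Q => exists_value_bound (hcQ Q) A
  refine ⟨res A cw (fun Q => |cN Q|), ?_, ?_, ?_⟩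
  · have := 𝒱.finite_NN
    have h1 : {j : 𝒱.JJ | A ⟨j.1, j.2.1⟩ ≠ 0}.Finite := by
      apply Set.Finite.of_finite_image (f := fun j : 𝒱.JJ => (⟨j.1, j.2.1⟩ : 𝒱.X.primeDivisors))
      · apply A.hasFiniteSupport.subset
        rintro _ ⟨j, hj, rfl⟩
        exact hj
      · intro j _ j' _ h
        exact Subtype.ext (congrArg (fun x : 𝒱.X.primeDivisors => x.1) h)
    refine ((h1.image Sum.inl).union (Set.finite_range Sum.inr)).subset ?_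
    rintro (j | Q) hj
    · exact Or.inl ⟨j, hj, rfl⟩
    · exact Or.inr ⟨Q, rfl⟩
  · intro h
    funext x
    rcases x with (i | w) | (j | Q)
    · change A _ = 0
      rw [h]; rfl
    · exact hcw0 w h
    · change A _ = 0
      rw [h]; rfl
    · change |cN Q| = 0
      rw [hcN0 Q h, abs_zero]
  · intro n
    have hn : (0 : ℚ) ≤ n := by positivity
    have hND := (hD.smul (n : ℚ)).add hA
    choose φ hφ using fun z : 𝒱.X.H0 ((n : ℚ) • D + A) => exists_ev_of_sec hND z.2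
    have hinj := ev_injective 𝒱.ht
    have hmem : ∀ z : 𝒱.X.H0 ((n : ℚ) • D + A), φ z ∈ (𝒱.ext W hW).secT ((n : ℚ) • D' +
        res A cw (fun Q => |cN Q|)) := by
      intro z u
      by_cases hu : φ z u = 0
      · rw [hu]; exact Submodule.zero_mem _
      have hev : ev K t (φ z) ≠ 0 := by
        intro h0
        have : φ z = 0 := hinj (by rw [h0, map_zero])
        rw [this] at hu
        exact hu rfl
      have hz := z.2
      rw [hφ z] at hz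
      have hz' := hz
      unfold ProjVar.H0 at hz'
      rw [mem_sec] at hz'
      rw [wt_HH hu]
      refine ⟨fun i => ?_, fun w => ?_, fun j => ?_, fun Q => ?_⟩
      · have h1 := hz' ⟨i.1, i.2.1⟩
        rw [DVal.ge_iff hev, Finsupp.add_apply, Finsupp.smul_apply, smul_eq_mul] at h1
        have h2 := i.2.2.1.le_term (φ z) u hu
        rw [𝒱.hor_term i hu] at h2
        have h3 : (i.1 (ev K t (φ z)) : ℚ) ≤ ipair (TV.wvec i.1 t) u := by exact_mod_cast h2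
        rw [ipair_cast] at h3
        change -(n * D ⟨i.1, i.2.1⟩ + A ⟨i.1, i.2.1⟩) ≤ (i.1 (ev K t (φ z)) : ℚ) at h1
        change 0 ≤ pairL (TV.wvec i.1 t) (fun l => (u l : ℚ)) +
          (n * D' (Sum.inl (Sum.inl i)) + A ⟨i.1, i.2.1⟩)
        have h6 := mul_le_mul_of_nonneg_left (hi i) hn
        linarith
      · have h1 := hcw w n _ hev hz
        have h2 := wVal_ev_le (𝒱 := 𝒱) w.1 (hW1 w.1 w.2) hu
        have h3 : (wVal 𝒱 w.1 (hW1 w.1 w.2) (ev K t (φ z)) : ℚ) ≤ ipair w.1 u := by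
          exact_mod_cast h2
        rw [ipair_cast] at h3
        change 0 ≤ pairL w.1 (fun l => (u l : ℚ)) + (n * D' (Sum.inl (Sum.inr w)) + cw w)
        linarith
      · have h1 := hz' ⟨j.1, j.2.1⟩
        rw [DVal.ge_iff hev, Finsupp.add_apply, Finsupp.smul_apply, smul_eq_mul] at h1
        have h2 := (𝒱.vert_inv j).le_term (φ z) u hu
        rw [𝒱.vert_term j hu] at h2
        have h3 : (j.1 (ev K t (φ z)) : ℚ) ≤ mult j * ((base j).1 (φ z u) : ℚ) +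
            ipair (TV.wvec j.1 t) u := by
          exact_mod_cast h2
        rw [ipair_cast] at h3
        change -(n * D ⟨j.1, j.2.1⟩ + A ⟨j.1, j.2.1⟩) ≤ (j.1 (ev K t (φ z)) : ℚ) at h1
        change 0 ≤ (mult j : ℚ) * ((base j).1 (φ z u) : ℚ) +
          (pairL (TV.wvec j.1 t) (fun l => (u l : ℚ)) +
            (n * D' (Sum.inr (Sum.inl j)) + A ⟨j.1, j.2.1⟩))
        have h6 := mul_le_mul_of_nonneg_left (hj j) hn
        linarith
      · have h1 := hcN Q n _ hev hz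
        have h2 := gaussVal_ev_le 𝒱.ht Q.1.1 hu
        have h3 : (gaussVal 𝒱.ht Q.1.1 (ev K t (φ z)) : ℚ) ≤ Q.1.1 (φ z u) := by
          exact_mod_cast h2
        change 0 ≤ (Q.1.1 (φ z u) : ℚ) + (n * D' (Sum.inr (Sum.inr Q)) + |cN Q|)
        have h6 := mul_le_mul_of_nonneg_left (hcQle Q) hn
        have h7 := le_abs_self (cN Q)
        linarith
    let F : 𝒱.X.H0 ((n : ℚ) • D + A) →ₗ[k] (𝒱.ext W hW).secT ((n : ℚ) • D' +
        res A cw (fun Q => |cN Q|)) :=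
      { toFun := fun z => ⟨φ z, hmem z⟩
        map_add' := fun a b => by
          apply Subtype.ext
          apply hinj
          change ev K t (φ (a + b)) = ev K t (φ a + φ b)
          rw [map_add, ← hφ, ← hφ, ← hφ]
          rfl
        map_smul' := fun c a => by
          apply Subtype.ext
          apply hinj
          change ev K t (φ (c • a)) = ev K t (c • φ a)
          rw [← hφ, ← algebraMap_smul K c (φ a), map_smul, ← hφ, algebraMap_smul]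
          rfl }
    apply sdim_le_of_injective F
    intro a b hab
    apply Subtype.ext
    rw [hφ a, hφ b]
    exact congrArg (fun x => ev K t x.1) hab

end TW

end Pool.Agent.Helper92.Tor
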