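import Pool.Agent.Helper92.Tor.Weyl
import Pool.Agent.Helper92.Weak.Values
import Pool.Agent.Helper92.Ga.Gauss
import Pool.Agent.Helper92.Ga.Implied
import Pool.Agent.Helper92.Ga.Comp

set_option autoImplicit false
set_option linter.unusedSectionVars false

/-! Varieties with a torus action, without a quotient morphism. -/

namespace Pool.Agent.Helper92.Tor

open Pool.Agent.Helper92.Weak Pool.Agent.Helper92.Ga MvPolynomial

/-- A variety `X` with an action of a torus and a model `Z` of the field of invariants such that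
every prime divisor of `X` is horizontal or lies over a prime divisor of `Z`. -/
structure TW (k K : Type*) {L : Type*} [Field k] [Field K] [Field L] [Algebra k K] [Algebra k L]
    [Algebra K L] [IsScalarTower k K L] {r : ℕ} (t : Fin r → L) where
  ht : IsTorus K t
  Z : ProjVar k K
  X : ProjVar k L
  stable : Stable X ht
  equi : ∀ P ∈ X.primeDivisors, (∃ a : K, P (algebraMap K L a) ≠ 0) →
    ∃ Q ∈ Z.primeDivisors, ∃ e : ℕ, ∀ a : K, P (algebraMap K L a) = e * Q a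

namespace TW

variable {k K L : Type*} [Field k] [Field K] [Field L] [Algebra k K] [Algebra k L] [Algebra K L]
  [IsScalarTower k K L] {r : ℕ} {t : Fin r → L} (𝒱 : TW k K t)

include 𝒱 in
lemma fgK : (⊤ : IntermediateField k K).FG := by
  classical
  refine ⟨Finset.univ.image (fun j => 𝒱.Z.x j / 𝒱.Z.x 0), ?_⟩
  rw [← 𝒱.Z.gen 0]
  congr 1
  simp

/-- The prime divisors of the base. -/
abbrev QQ : Type _ := {Q : DVal k K // Q ∈ 𝒱.Z.primeDivisors}

/-- The horizontal invariant prime divisors. -/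
abbrev HH : Type _ := {P : DVal k L // P ∈ 𝒱.X.primeDivisors ∧ IsInv 𝒱.ht P ∧
  ∀ a : K, P (algebraMap K L a) = 0}

/-- The vertical prime divisors. -/
abbrev JJ : Type _ := {P : DVal k L // P ∈ 𝒱.X.primeDivisors ∧
  ∃ a : K, P (algebraMap K L a) ≠ 0}

section

variable {𝒱} (j : 𝒱.JJ)

/-- The underlying prime divisor of the base. -/
noncomputable def base (j : 𝒱.JJ) : 𝒱.QQ :=
  ⟨(𝒱.equi j.1 j.2.1 j.2.2).choose, (𝒱.equi j.1 j.2.1 j.2.2).choose_spec.1⟩

/-- The multiplicity. -/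
noncomputable def mult (j : 𝒱.JJ) : ℕ := (𝒱.equi j.1 j.2.1 j.2.2).choose_spec.2.choose

lemma mult_spec (a : K) : j.1 (algebraMap K L a) = mult j * (base j).1 a :=
  (𝒱.equi j.1 j.2.1 j.2.2).choose_spec.2.choose_spec a

lemma mult_pos : 0 < mult j := by
  obtain ⟨a, ha⟩ := j.2.2
  rw [mult_spec] at ha
  have := left_ne_zero_of_mul ha
  omega

lemma base_eq {Q : DVal k K} (hQ : Q ∈ 𝒱.Z.primeDivisors) {e : ℕ} (he : 0 < e)
    (h : ∀ a : K, j.1 (algebraMap K L a) = e * Q a) : base j = ⟨Q, hQ⟩ := by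
  apply Subtype.ext
  apply DVal.eq_of_ring_le
  intro a ha
  rw [DVal.mem_ring] at ha ⊢
  have h1 := mult_spec j a
  rw [h] at h1
  have h2 : (0 : ℤ) ≤ mult j * (base j).1 a := mul_nonneg (by positivity) ha
  rw [← h1] at h2
  change 0 ≤ Q a
  have he' : (0 : ℤ) < e := by exact_mod_cast he
  by_contra hneg
  push Not at hneg
  have := mul_neg_of_pos_of_neg he' hneg
  omega

end

variable [IsAlgClosed k] [CharZero k]

/-- An invariant valuation is monomial. -/
lemma inv_eq (P : DVal k L) (hP : IsInv 𝒱.ht P) :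
    ∃ hs, P = monoVal 𝒱.ht (ZVal.restrict P) (TV.wvec P t) hs :=
  eq_monoVal 𝒱.ht P fun f u hu => hP.le_term f u hu

lemma vert_inv (j : 𝒱.JJ) : IsInv 𝒱.ht j.1 := by
  obtain ⟨a, ha⟩ := j.2.2
  exact isInv_of_algebraMap 𝒱.stable j.2.1 ha

lemma vert_term (j : 𝒱.JJ) {a : K} (ha : a ≠ 0) (u : Fin r → ℤ) :
    j.1 (a • mono t u) = mult j * (base j).1 a + ipair (TV.wvec j.1 t) u := by
  obtain ⟨hs, h⟩ := 𝒱.inv_eq j.1 (𝒱.vert_inv j)
  conv_lhs => rw [h]
  rw [monoVal_term 𝒱.ht _ _ hs ha]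
  congr 1
  exact mult_spec j a

lemma hor_term (i : 𝒱.HH) {a : K} (ha : a ≠ 0) (u : Fin r → ℤ) :
    i.1 (a • mono t u) = ipair (TV.wvec i.1 t) u := by
  obtain ⟨hs, h⟩ := 𝒱.inv_eq i.1 i.2.2.1
  conv_lhs => rw [h]
  rw [monoVal_term 𝒱.ht _ _ hs ha]
  have : (ZVal.restrict i.1 : ZVal k K) a = 0 := i.2.2.2 a
  rw [this, zero_add]

/-- The normalisation of a vertical divisor. -/
lemma vert_norm (j : 𝒱.JJ) : ∃ (c : K) (u : Fin r → ℤ), c ≠ 0 ∧
    mult j * (base j).1 c + ipair (TV.wvec j.1 t) u = 1 := by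
  obtain ⟨⟨c, u, hc, h1⟩, h⟩ := 𝒱.inv_eq j.1 (𝒱.vert_inv j)
  refine ⟨c, u, hc, ?_⟩
  rw [← h1]
  congr 1
  exact (mult_spec j c).symm

lemma hor_ne (i : 𝒱.HH) : ∃ l, i.1 (t l) ≠ 0 := by
  obtain ⟨⟨c, u, hc, h1⟩, h⟩ := 𝒱.inv_eq i.1 i.2.2.1
  by_contra hcon
  push Not at hcon
  have h2 : ipair (TV.wvec i.1 t) u = 0 := by
    unfold ipair TV.wvec
    exact Finset.sum_eq_zero fun l _ => by rw [hcon l, mul_zero]
  have h3 : (ZVal.restrict i.1 : ZVal k K) c = 0 := i.2.2.2 c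
  rw [h2, h3] at h1
  omega

lemma hor_finite : Finite 𝒱.HH := by
  have h : {P : DVal k L | P ∈ 𝒱.X.primeDivisors ∧ IsInv 𝒱.ht P ∧
      ∀ a : K, P (algebraMap K L a) = 0}.Finite := by
    apply (Set.finite_iUnion fun l => 𝒱.X.finite_support (𝒱.ht.ne_zero l)).subset
    rintro P hP
    obtain ⟨l, hl⟩ := 𝒱.hor_ne ⟨P, hP⟩
    rw [Set.mem_iUnion]
    exact ⟨l, hP.1, hl⟩
  exact h.to_subtype

lemma fib (Q : 𝒱.QQ) : {j : 𝒱.JJ | base j = Q}.Finite := by
  obtain ⟨p, hp0, hp⟩ := Q.1.exists_uniformizer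
  have hp0' : algebraMap K L p ≠ 0 := by simpa using hp0
  apply Set.Finite.of_finite_image (f := fun j : 𝒱.JJ => j.1) _ (Subtype.val_injective.injOn)
  apply (𝒱.X.finite_support hp0').subset
  rintro _ ⟨j, hj, rfl⟩
  refine ⟨j.2.1, ?_⟩
  rw [Set.mem_ofPred_eq] at hj
  change j.1 _ ≠ 0
  rw [mult_spec, hj, hp]
  have := mult_pos j
  simp
  omega

lemma special : {j : 𝒱.JJ | TV.wvec j.1 t ≠ 0 ∨ mult j ≠ 1}.Finite := by
  apply Set.Finite.of_finite_image (f := fun j : 𝒱.JJ => j.1) _ (Subtype.val_injective.injOn)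
  apply (Set.finite_iUnion fun l => 𝒱.X.finite_support (𝒱.ht.ne_zero l)).subset
  rintro _ ⟨j, hj, rfl⟩
  have hw : TV.wvec j.1 t ≠ 0 := by
    intro hw
    obtain ⟨c, u, hc, h⟩ := 𝒱.vert_norm j
    rw [hw] at h
    have h1 : (mult j : ℤ) * (base j).1 c = 1 := by
      rw [← h]
      simp [ipair]
    have h2 : mult j = 1 := by
      have h3 : (0 : ℤ) ≤ mult j := by positivity
      have h4 := Int.eq_one_of_mul_eq_one_right h3 h1
      exact_mod_cast h4
    rcases hj with h3 | h3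
    · exact h3 hw
    · exact h3 h2
  obtain ⟨l, hl⟩ := Function.ne_iff.1 hw
  rw [Set.mem_iUnion]
  exact ⟨l, j.2.1, hl⟩

omit [IsAlgClosed k] [CharZero k] in
/-- Finitely many prime divisors of the base have no prime divisor of `X` above them. -/
lemma finite_not_base : {Q : 𝒱.QQ | ∀ j, base j ≠ Q}.Finite := by
  apply Set.Finite.of_finite_image (f := fun Q : 𝒱.QQ => Q.1) _ (Subtype.val_injective.injOn)
  apply (finite_gauss_notMem 𝒱.ht 𝒱.X 𝒱.Z).subset
  rintro _ ⟨Q, hQ, rfl⟩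
  refine ⟨Q.2, fun hcon => ?_⟩
  obtain ⟨p, hp0, hp⟩ := Q.1.exists_uniformizer
  let j : 𝒱.JJ := ⟨gaussVal 𝒱.ht Q.1, hcon, p, by
    rw [gaussVal_algebraMap, hp]
    exact one_ne_zero⟩
  refine hQ j (base_eq j Q.2 one_pos fun a => ?_)
  change gaussVal 𝒱.ht Q.1 _ = _
  rw [gaussVal_algebraMap]
  simp

/-- The prime divisors of the base with no prime divisor of `X` above them. -/
abbrev NN : Type _ := {Q : 𝒱.QQ // ∀ j : 𝒱.JJ, base j ≠ Q}

omit [IsAlgClosed k] [CharZero k] in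
lemma finite_NN : Finite 𝒱.NN := 𝒱.finite_not_base.to_subtype

/-- The combinatorial data, extended by finitely many horizontal valuations and by the Gauss
valuations of the prime divisors of the base with no prime divisor of `X` above them. -/
noncomputable def ext (W : Finset (Fin r → ℤ))
    (hW : ∀ u : Fin r → ℚ, (∀ w ∈ W, 0 ≤ pairL w u) → u = 0) :
    TData k K r 𝒱.QQ (𝒱.HH ⊕ {w // w ∈ W}) (𝒱.JJ ⊕ 𝒱.NN) where
  ord Q := Q.1
  ρ := Sum.elim (fun i => TV.wvec i.1 t) fun w => w.1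
  base := Sum.elim base fun Q => Q.1
  e := Sum.elim mult fun _ => 1
  e_pos j := by
    cases j with
    | inl j => exact mult_pos j
    | inr Q => exact one_pos
  w := Sum.elim (fun j => TV.wvec j.1 t) fun _ => 0
  base_surj Q := by
    by_cases h : ∃ j : 𝒱.JJ, base j = Q
    · obtain ⟨j, hj⟩ := h
      exact ⟨Sum.inl j, hj⟩
    · push Not at h
      exact ⟨Sum.inr ⟨Q, h⟩, rfl⟩
  fib Q := by
    have := 𝒱.finite_NN
    refine (((𝒱.fib Q).image Sum.inl).union (Set.finite_range Sum.inr)).subset ?_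
    rintro (j | Q') hj
    · exact Or.inl ⟨j, hj, rfl⟩
    · exact Or.inr ⟨Q', rfl⟩
  special := by
    have := 𝒱.finite_NN
    refine ((𝒱.special.image Sum.inl).union (Set.finite_range Sum.inr)).subset ?_
    rintro (j | Q') hj
    · exact Or.inl ⟨j, hj, rfl⟩
    · exact Or.inr ⟨Q', rfl⟩
  complete u hu := hW u fun w hw => hu (Sum.inr ⟨w, hw⟩)

end TW

end Pool.Agent.Helper92.Tor
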