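import Pool.Agent.Helper92.Weak.LP

set_option autoImplicit false

/-! Finitely generated cones are polyhedral. -/

namespace Pool.Agent.Helper92.Tor

open Pool.Agent.Helper92.Weak Module

/-- A finitely generated cone is cut out by finitely many half spaces. -/
theorem exists_functionals {V : Type*} [AddCommGroup V] [Module ℚ V] [FiniteDimensional ℚ V]
    (S : Finset V) : ∃ W : Finset (V →ₗ[ℚ] ℚ), (∀ φ ∈ W, ∀ s ∈ S, 0 ≤ φ s) ∧
      ∀ x : V, (∀ φ ∈ W, 0 ≤ φ x) → ∃ c : V → ℚ, (∀ s ∈ S, 0 ≤ c s) ∧ x = ∑ s ∈ S, c s • s := by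
  classical
  induction S using Finset.induction_on with
  | empty =>
    let b := Module.finBasis ℚ V
    refine ⟨Finset.univ.image (fun i => b.coord i) ∪ Finset.univ.image (fun i => -b.coord i),
      fun φ _ s hs => absurd hs (Finset.notMem_empty s), fun x hx => ⟨0, by simp, ?_⟩⟩
    rw [Finset.sum_empty]
    apply b.ext_elem
    intro i
    have h1 := hx (b.coord i) (Finset.mem_union_left _ (Finset.mem_image_of_mem _ (Finset.mem_univ i)))
    have h2 := hx (-b.coord i)
      (Finset.mem_union_right _ (Finset.mem_image.2 ⟨i, Finset.mem_univ i, rfl⟩))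
    rw [LinearMap.neg_apply] at h2
    rw [Basis.coord_apply] at h1 h2
    rw [map_zero, Finsupp.zero_apply]
    linarith
  | insert a S ha ih =>
    obtain ⟨W, hW1, hW2⟩ := ih
    let pairs := (W.filter fun φ => 0 < φ a) ×ˢ (W.filter fun φ => φ a < 0)
    refine ⟨(W.filter fun φ => 0 ≤ φ a) ∪
      pairs.image (fun p => (-(p.2 a)) • p.1 + (p.1 a) • p.2), ?_, ?_⟩
    · intro φ hφ s hs
      rw [Finset.mem_union, Finset.mem_filter, Finset.mem_image] at hφ
      rcases hφ with ⟨hφW, hφa⟩ | ⟨⟨φ₁, φ₂⟩, hp, rfl⟩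
      · rw [Finset.mem_insert] at hs
        rcases hs with rfl | hs
        · exact hφa
        · exact hW1 φ hφW s hs
      · simp only [pairs, Finset.mem_product, Finset.mem_filter] at hp
        obtain ⟨⟨h1, h2⟩, h3, h4⟩ := hp
        rw [Finset.mem_insert] at hs
        simp only [LinearMap.add_apply, LinearMap.smul_apply, smul_eq_mul]
        rcases hs with rfl | hs
        · apply le_of_eq
          ring
        · have h5 := mul_nonneg (by linarith : 0 ≤ -(φ₂ a)) (hW1 φ₁ h1 s hs)
          have h6 := mul_nonneg h2.le (hW1 φ₂ h3 s hs)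
          linarith
    · intro x hx
      obtain ⟨l, hl0, hl⟩ : ∃ l : ℚ, 0 ≤ l ∧ ∀ φ ∈ W, 0 ≤ φ (x - l • a) := by
        have hpos : ∀ φ ∈ W, 0 ≤ φ a → 0 ≤ φ x := fun φ hφ h =>
          hx φ (Finset.mem_union_left _ (Finset.mem_filter.2 ⟨hφ, h⟩))
        have hpair : ∀ φ ∈ W, ∀ ψ ∈ W, 0 < φ a → ψ a < 0 → 0 ≤ -(ψ a) * φ x + φ a * ψ x := by
          intro φ hφ ψ hψ h1 h2
          have h3 := hx ((-(ψ a)) • φ + (φ a) • ψ) (Finset.mem_union_right _
            (Finset.mem_image.2 ⟨(φ, ψ), by
              simp only [pairs, Finset.mem_product, Finset.mem_filter]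
              exact ⟨⟨hφ, h1⟩, hψ, h2⟩, rfl⟩))
          simpa only [LinearMap.add_apply, LinearMap.smul_apply, smul_eq_mul] using h3
        by_cases hN : ∃ ψ ∈ W, ψ a < 0 ∧ ψ x < 0
        · -- the largest quotient
          obtain ⟨ψ, hψ, hmax⟩ := Finset.exists_max_image (W.filter fun ψ => ψ a < 0)
            (fun ψ => ψ x / ψ a) (by
              obtain ⟨ψ, h1, h2, -⟩ := hN
              exact ⟨ψ, Finset.mem_filter.2 ⟨h1, h2⟩⟩)
          rw [Finset.mem_filter] at hψ
          have hl0 : 0 ≤ ψ x / ψ a := by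
            obtain ⟨ψ', h1, h2, h3⟩ := hN
            have h4 := hmax ψ' (Finset.mem_filter.2 ⟨h1, h2⟩)
            have h5 : 0 ≤ ψ' x / ψ' a := div_nonneg_of_nonpos h3.le h2.le
            exact h5.trans h4
          refine ⟨ψ x / ψ a, hl0, fun φ hφ => ?_⟩
          rw [map_sub, map_smul, smul_eq_mul]
          rcases lt_trichotomy (φ a) 0 with h | h | h
          · have h1 := hmax φ (Finset.mem_filter.2 ⟨hφ, h⟩)
            have h2 := mul_le_mul_of_nonpos_right h1 h.le
            rw [div_mul_cancel₀ _ h.ne] at h2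
            linarith
          · rw [h, mul_zero, sub_zero]
            exact hpos φ hφ h.ge
          · have h1 := hpair φ hφ ψ hψ.1 h hψ.2
            have h2 : 0 < -(ψ a) := by linarith [hψ.2]
            have h3 : -(ψ a) * (φ x - ψ x / ψ a * φ a) = -(ψ a) * φ x + φ a * ψ x := by
              have := hψ.2.ne
              field_simp
              ring
            have h4 : 0 ≤ -(ψ a) * (φ x - ψ x / ψ a * φ a) := by rw [h3]; exact h1
            exact nonneg_of_mul_nonneg_right h4 h2
        · push Not at hN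
          refine ⟨0, le_rfl, fun φ hφ => ?_⟩
          rw [zero_smul, sub_zero]
          by_cases h : φ a < 0
          · exact hN φ hφ h
          · exact hpos φ hφ (not_lt.1 h)
      obtain ⟨c, hc, hcx⟩ := hW2 _ hl
      refine ⟨fun s => if s = a then l else c s, fun s hs => ?_, ?_⟩
      · simp only
        split_ifs with h
        · exact hl0
        · rw [Finset.mem_insert] at hs
          exact hc s (hs.resolve_left h)
      · simp only
        rw [Finset.sum_insert ha, if_pos rfl]
        have h1 : ∑ s ∈ S, (if s = a then l else c s) • s = ∑ s ∈ S, c s • s := by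
          refine Finset.sum_congr rfl fun s hs => ?_
          rw [if_neg]
          rintro rfl
          exact ha hs
        rw [h1, ← hcx]
        abel

/-- Finitely many primitive vectors which describe the convex hull of finitely many points. -/
theorem exists_W {r : ℕ} (S : Finset (Fin r → ℤ)) (hS : S.Nonempty) :
    ∃ W : Finset (Fin r → ℤ), (∀ w ∈ W, ∃ a, ipair w a = 1) ∧
      (∀ u : Fin r → ℚ, (∀ w ∈ W, 0 ≤ pairL w u) → u = 0) ∧
      ∀ u : Fin r → ℚ, (∀ w ∈ W, ∃ b ∈ S, pairL w (toQ b) ≤ pairL w u) → ∃ τ, τ ∈ verts S u := by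
  classical
  let V := (Fin r → ℚ) × ℚ
  let pt : (Fin r → ℤ) → V := fun b => (toQ b, 1)
  obtain ⟨W₀, h1, h2⟩ := exists_functionals (S.image pt)
  -- primitive vectors
  have key : ∀ φ : V →ₗ[ℚ] ℚ, (∀ u : Fin r → ℚ, φ (u, 0) = 0) ∨ ∃ (w : Fin r → ℤ) (q : ℚ), 0 < q ∧
      (∃ a, ipair w a = 1) ∧ ∀ u : Fin r → ℚ, φ (u, 0) = q * pairL w u := by
    intro φ
    obtain ⟨n, z, hn, hz⟩ := exists_pairL (φ ∘ₗ LinearMap.inl ℚ (Fin r → ℚ) ℚ)
    have hn' : (0 : ℚ) < n := by exact_mod_cast hn
    by_cases hz0 : z = 0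
    · left
      intro u
      have h3 := hz u
      rw [hz0, pairL_zero, LinearMap.zero_apply] at h3
      exact (mul_eq_zero.1 h3).resolve_left hn'.ne'
    · right
      obtain ⟨g, e', w', a, u', hg, he', hw', h3⟩ := exists_primitive 0 z (Or.inr hz0)
      have he'0 : e' = 0 := by
        rcases mul_eq_zero.1 he'.symm with h | h
        · exact absurd h hg.ne'
        · exact h
      rw [he'0, mul_zero, zero_add] at h3
      have hg' : (0 : ℚ) < g := by exact_mod_cast hg
      refine ⟨w', g / n, div_pos hg' hn', ⟨u', h3⟩, fun u => ?_⟩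
      have h4 : pairL z u = g * pairL w' u := by
        rw [pairL_apply, pairL_apply, Finset.mul_sum]
        refine Finset.sum_congr rfl fun l _ => ?_
        rw [hw' l]
        push_cast
        ring
      have h5 := hz u
      rw [h4] at h5
      change (n : ℚ) * φ (u, 0) = _ at h5
      rw [div_mul_eq_mul_div, eq_div_iff hn'.ne', mul_comm]
      exact h5
  let prim : (V →ₗ[ℚ] ℚ) → (Fin r → ℤ) := fun φ =>
    if h : ∃ (w : Fin r → ℤ) (q : ℚ), 0 < q ∧
      (∃ a, ipair w a = 1) ∧ ∀ u : Fin r → ℚ, φ (u, 0) = q * pairL w u then h.choose else 0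
  have hprim : ∀ φ : V →ₗ[ℚ] ℚ, (∃ (w : Fin r → ℤ) (q : ℚ), 0 < q ∧
      (∃ a, ipair w a = 1) ∧ ∀ u : Fin r → ℚ, φ (u, 0) = q * pairL w u) →
      ∃ q : ℚ, 0 < q ∧ (∃ a, ipair (prim φ) a = 1) ∧
        ∀ u : Fin r → ℚ, φ (u, 0) = q * pairL (prim φ) u := by
    intro φ h
    simp only [prim, dif_pos h]
    exact h.choose_spec
  let W₁ := (W₀.image prim).filter fun w => ∃ a, ipair w a = 1
  let W₂ : Finset (Fin r → ℤ) := (Finset.univ.image fun l : Fin r => Pi.single l 1) ∪
    (Finset.univ.image fun l : Fin r => Pi.single l (-1))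
  have hsingle : ∀ (l : Fin r) (c : ℤ) (u : Fin r → ℚ), pairL (Pi.single l c) u = c * u l := by
    intro l c u
    rw [pairL_apply, Finset.sum_eq_single l]
    · rw [Pi.single_eq_same]; ring
    · intro j _ hj
      rw [Pi.single_eq_of_ne hj]
      simp
    · simp
  have hsingle' : ∀ (l : Fin r) (c : ℤ) (u : Fin r → ℤ), ipair (Pi.single l c) u = u l * c := by
    intro l c u
    unfold ipair
    rw [Finset.sum_eq_single l]
    · rw [Pi.single_eq_same]
    · intro j _ hj
      rw [Pi.single_eq_of_ne hj, mul_zero]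
    · simp
  refine ⟨W₁ ∪ W₂, ?_, ?_, ?_⟩
  · intro w hw
    rw [Finset.mem_union] at hw
    rcases hw with hw | hw
    · exact (Finset.mem_filter.1 hw).2
    · simp only [W₂, Finset.mem_union, Finset.mem_image, Finset.mem_univ, true_and] at hw
      rcases hw with ⟨l, rfl⟩ | ⟨l, rfl⟩
      · exact ⟨Pi.single l 1, by rw [hsingle', Pi.single_eq_same, mul_one]⟩
      · exact ⟨Pi.single l (-1), by rw [hsingle', Pi.single_eq_same]; norm_num⟩
  · intro u hu
    funext l
    have h3 := hu (Pi.single l 1) (Finset.mem_union_right _ (by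
      simp only [W₂, Finset.mem_union, Finset.mem_image, Finset.mem_univ, true_and]
      exact Or.inl ⟨l, rfl⟩))
    have h4 := hu (Pi.single l (-1)) (Finset.mem_union_right _ (by
      simp only [W₂, Finset.mem_union, Finset.mem_image, Finset.mem_univ, true_and]
      exact Or.inr ⟨l, rfl⟩))
    rw [hsingle] at h3 h4
    push_cast at h3 h4
    rw [Pi.zero_apply]
    linarith
  · intro u hu
    apply exists_conv S hS
    -- the point lies in the cone
    have hcone : ∀ φ ∈ W₀, 0 ≤ φ (u, 1) := by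
      intro φ hφ
      have hsplit : ∀ x : Fin r → ℚ, φ (x, 1) = φ (x, 0) + φ (0, 1) := by
        intro x
        rw [← map_add]
        congr 1
        rw [Prod.mk_add_mk, add_zero, zero_add]
      have hb : ∀ b ∈ S, 0 ≤ φ (toQ b, 1) := fun b hb =>
        h1 φ hφ _ (Finset.mem_image_of_mem pt hb)
      rcases key φ with h3 | h3
      · obtain ⟨b, hbS⟩ := hS
        have h4 := hb b hbS
        rw [hsplit, h3] at h4 ⊢
        exact h4
      · obtain ⟨q, hq, ha, hqu⟩ := hprim φ h3
        obtain ⟨b, hbS, hle⟩ := hu (prim φ) (Finset.mem_union_left _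
          (Finset.mem_filter.2 ⟨Finset.mem_image_of_mem _ hφ, ha⟩))
        have h4 := hb b hbS
        rw [hsplit, hqu] at h4 ⊢
        have h5 := mul_le_mul_of_nonneg_left hle hq.le
        linarith
    obtain ⟨c, hc, hcu⟩ := h2 (u, 1) hcone
    have hinj : Function.Injective pt := by
      intro b b' hbb
      have h3 : toQ b = toQ b' := congrArg Prod.fst hbb
      funext l
      have h4 : (b l : ℚ) = (b' l : ℚ) := congrFun h3 l
      exact_mod_cast h4
    rw [Finset.sum_image fun b _ b' _ h => hinj h] at hcu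
    have hsum1 : ∑ b ∈ S, c (pt b) • toQ b = u := by
      have h3 := congrArg Prod.fst hcu
      rw [Prod.fst_sum] at h3
      exact h3.symm
    have hsum2 : ∑ b ∈ S, c (pt b) = 1 := by
      have h3 := congrArg Prod.snd hcu
      rw [Prod.snd_sum] at h3
      have h4 : ∀ b : Fin r → ℤ, (c (pt b) • pt b).2 = c (pt b) := by
        intro b
        change c (pt b) • (1 : ℚ) = _
        rw [smul_eq_mul, mul_one]
      rw [Finset.sum_congr rfl fun b _ => h4 b] at h3
      exact h3.symm
    intro w _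
    by_contra hcon
    push Not at hcon
    have h3 : pairL w u = ∑ b ∈ S, c (pt b) * pairL w (toQ b) := by
      rw [← hsum1, map_sum]
      exact Finset.sum_congr rfl fun b _ => by rw [map_smul, smul_eq_mul]
    have h4 : pairL w u = ∑ b ∈ S, c (pt b) * pairL w u := by
      rw [← Finset.sum_mul, hsum2, one_mul]
    have hc' : ∀ b ∈ S, 0 ≤ c (pt b) := fun b hb => hc _ (Finset.mem_image_of_mem pt hb)
    obtain ⟨b₀, hb₀, hb₀c⟩ : ∃ b ∈ S, c (pt b) ≠ 0 := by
      by_contra h0
      push Not at h0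
      rw [Finset.sum_eq_zero h0] at hsum2
      norm_num at hsum2
    have h5 : ∑ b ∈ S, c (pt b) * pairL w u < ∑ b ∈ S, c (pt b) * pairL w (toQ b) := by
      apply Finset.sum_lt_sum
      · intro b hb
        exact mul_le_mul_of_nonneg_left (hcon b hb).le (hc' b hb)
      · exact ⟨b₀, hb₀, mul_lt_mul_of_pos_left (hcon b₀ hb₀)
          (lt_of_le_of_ne (hc' b₀ hb₀) (Ne.symm hb₀c))⟩
    rw [← h3, ← h4] at h5
    exact lt_irrefl _ h5

end Pool.Agent.Helper92.Tor
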